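import Mathlib

/-!
Paths and cycles as vertex lists, and flexible paths.
-/

set_option autoImplicit false

namespace Pool.Agent.H56.Td

open List

variable {V : Type*} (G : SimpleGraph V)

/-- `Pth G u v m` says that `u, m, v` is the vertex list of a path of `G`. -/
def Pth (u v : V) (m : List V) : Prop :=
  (u :: (m ++ [v])).IsChain G.Adj ∧ (u :: (m ++ [v])).Nodup

/-- `G` has a cycle with `n` vertices (meaningful for `3 ≤ n`). -/
def Cyc (n : ℕ) : Prop :=
  ∃ (u : V) (m : List V), (u :: m).length = n ∧ (u :: (m ++ [u])).IsChain G.Adj ∧ (u :: m).Nodup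

/-- For every finite set of vertices there is a path of length `l` from `u` to `v` with
interior avoiding that set. -/
def Flex (l : ℕ) (u v : V) : Prop :=
  ∀ X : Finset V, ∃ m : List V, m.length + 1 = l ∧ Pth G u v m ∧ ∀ x ∈ m, x ∉ X

variable {G}

theorem Pth.ne {u v : V} {m : List V} (h : Pth G u v m) : u ≠ v := by
  have := h.2
  simp only [List.nodup_cons, List.mem_append, List.mem_singleton, not_or] at this
  exact this.1.2

theorem Pth.symm {u v : V} {m : List V} (h : Pth G u v m) : Pth G v u m.reverse := by
  obtain ⟨h1, h2⟩ := h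
  have e : v :: (m.reverse ++ [u]) = (u :: (m ++ [v])).reverse := by simp
  refine ⟨?_, ?_⟩
  · rw [e, List.isChain_reverse]
    refine h1.imp ?_
    intro a b hab
    exact hab.symm
  · rw [e, List.nodup_reverse]
    exact h2

theorem Flex.symm {l : ℕ} {u v : V} (h : Flex G l u v) : Flex G l v u := by
  intro X
  obtain ⟨m, h1, h2, h3⟩ := h X
  exact ⟨m.reverse, by simpa using h1, h2.symm, by simpa using h3⟩

theorem Pth.trans {u v w : V} {m m' : List V} (h : Pth G u v m) (h' : Pth G v w m')
    (h1 : ∀ x ∈ m', x ∉ m) (h2 : u ∉ m') (h3 : w ∉ m) (h4 : u ≠ w) :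
    Pth G u w (m ++ v :: m') := by
  obtain ⟨c1, n1⟩ := h
  obtain ⟨c2, n2⟩ := h'
  refine ⟨?_, ?_⟩
  · rw [List.append_assoc, List.cons_append, List.isChain_cons_split]
    exact ⟨c1, c2⟩
  · simp only [List.nodup_cons, List.mem_append, List.nodup_append,
      List.mem_cons, List.not_mem_nil, not_or] at n1 n2 ⊢
    grind

theorem cyc_of_pth {u v : V} {m m' : List V} (h : Pth G u v m) (h' : Pth G v u m')
    (h1 : ∀ x ∈ m', x ∉ m) : Cyc G (m.length + 1 + (m'.length + 1)) := by
  obtain ⟨c1, n1⟩ := h
  obtain ⟨c2, n2⟩ := h'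
  refine ⟨u, m ++ v :: m', ?_, ?_, ?_⟩
  · simp; omega
  · rw [List.append_assoc, List.cons_append, List.isChain_cons_split]
    exact ⟨c1, c2⟩
  · simp only [List.nodup_cons, List.mem_append, List.nodup_append,
      List.mem_cons, List.not_mem_nil, not_or] at n1 n2 ⊢
    grind

theorem cyc_of_flex {u v : V} {m : List V} {l : ℕ} (h : Pth G u v m) (h' : Flex G l v u) :
    Cyc G (m.length + 1 + l) := by
  classical
  obtain ⟨m', h1, h2, h3⟩ := h' m.toFinset
  rw [← h1]
  exact cyc_of_pth h h2 (fun x hx => by simpa using h3 x hx)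

theorem cyc_isContained {n : ℕ} (hn : 3 ≤ n) (h : Cyc G n) : (SimpleGraph.cycleGraph n).IsContained G := by
  obtain ⟨u, m, hl, hc, hnd⟩ := h
  have key : ∀ (i : ℕ) (hi : i + 1 < n), G.Adj ((u :: m)[i]'(by omega)) ((u :: m)[i+1]'(by omega)) := by
    intro i hi
    have hc' : (u :: m).IsChain G.Adj := by
      have : (u :: (m ++ [u])) = (u :: m) ++ [u] := by simp
      rw [this] at hc
      exact hc.left_of_append
    exact List.isChain_iff_getElem.1 hc' i (by omega)
  have key2 : G.Adj ((u :: m)[n-1]'(by omega)) u := by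
    have : (u :: (m ++ [u])) = (u :: m) ++ [u] := by simp
    rw [this] at hc
    have := hc.rel_getLast_head_of_append (by simp) (by simp)
    simp only [List.head_cons] at this
    have e : (u :: m)[n-1]'(by omega) = (u :: m).getLast (by simp) := by
      rw [List.getLast_eq_getElem]
      congr 1
      omega
    rw [e]
    exact this
  have key0 : (u :: m)[0]'(by omega) = u := rfl
  refine ⟨⟨⟨fun i => (u :: m)[i.val]'(by have := i.isLt; omega), ?_⟩, ?_⟩⟩
  · intro a b hab
    have step : ∀ a b : Fin n, (a - b).val = 1 →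
        G.Adj ((u :: m)[a.val]'(by have := a.isLt; omega)) ((u :: m)[b.val]'(by have := b.isLt; omega)) := by
      intro a b hab
      by_cases hle : b ≤ a
      · have e1 : a.val = b.val + 1 := by
          rw [Fin.sub_val_of_le hle] at hab
          have : b.val ≤ a.val := hle
          omega
        have := key b.val (by have := a.isLt; omega)
        simp only [e1]
        exact this.symm
      · have hlt : a < b := not_le.1 hle
        rw [Fin.coe_sub_iff_lt.2 hlt] at hab
        have h1 := a.isLt
        have h2 := b.isLt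
        have ea : a.val = 0 := by omega
        have eb : b.val = n - 1 := by omega
        simp only [ea, eb]
        rw [key0]
        exact key2.symm
    rcases SimpleGraph.cycleGraph_adj'.1 hab with h | h
    · exact step a b h
    · exact (step b a h).symm
  · intro a b hab
    have := (List.Nodup.getElem_inj_iff hnd).1 hab
    exact Fin.ext this

end Pool.Agent.H56.Td
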