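import Pool.Agent.H56.Td.Basic

/-!
Ultrafilter case analysis for graphs of diameter at most three.
-/

set_option autoImplicit false

namespace Pool.Agent.H56.Td

open Filter

variable {V : Type*} (G : SimpleGraph V)

/-- Any two vertices are joined by a walk of length at most three. -/
def Diam3 : Prop :=
  ∀ u v, u = v ∨ G.Adj u v ∨ (∃ x, G.Adj u x ∧ G.Adj x v) ∨
    ∃ x y, G.Adj u x ∧ G.Adj x y ∧ G.Adj y v

/-- `U` is nonprincipal. -/
def NP (U : Ultrafilter V) : Prop := ∀ x, ∀ᶠ v in (U : Filter V), v ≠ x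

/-- no hub -/
def Thin (U : Ultrafilter V) : Prop := ∀ x, ∀ᶠ v in (U : Filter V), ¬ G.Adj x v

def Rich (U : Ultrafilter V) (x : V) : Prop :=
  ∀ᶠ v in (U : Filter V), ∃ y, G.Adj x y ∧ G.Adj y v

def Poor (U : Ultrafilter V) (u : V) : Prop :=
  ¬ Rich G U u ∧ ∀ x, G.Adj u x → ¬ Rich G U x

def GF (W : Ultrafilter V) (l : ℕ) : Prop :=
  ∀ᶠ u in (W : Filter V), ∀ᶠ v in (W : Filter V), Flex G l u v

def GE (W : Ultrafilter V) (l : ℕ) : Prop :=
  ∀ᶠ u in (W : Filter V), ∀ᶠ v in (W : Filter V), ∃ m : List V, m.length + 1 = l ∧ Pth G u v m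

variable {G}
variable {U W : Ultrafilter V}

theorem NP.notMem (h : NP W) (X : Finset V) : ∀ᶠ v in (W : Filter V), v ∉ X := by
  have : ∀ᶠ v in (W : Filter V), ∀ x ∈ X, v ≠ x := (Filter.eventually_all_finset X).2 (fun x _ => h x)
  refine this.mono ?_
  intro v hv hmem
  exact hv v hmem rfl

theorem GF.ge {l : ℕ} (h : GF G W l) : GE G W l := by
  refine h.mono fun u hu => hu.mono fun v hv => ?_
  obtain ⟨m, h1, h2, _⟩ := hv ∅
  exact ⟨m, h1, h2⟩

theorem GF.add (hW : NP W) {l l' : ℕ} (h : GF G W l) (h' : GF G W l') : GF G W (l + l') := by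
  classical
  refine h.mono fun u hu => ?_
  have h3 : ∀ᶠ v in (W : Filter V), v ≠ u := hW u
  filter_upwards [h', h3] with v hv hvu
  intro X
  have h4 := hW.notMem (insert u (insert v X))
  obtain ⟨w, hw1, hw2, hw3⟩ := (hu.and (hv.and h4)).exists
  simp only [Finset.mem_insert, not_or] at hw3
  obtain ⟨m, hm1, hm2, hm3⟩ := hw1 (insert v X)
  obtain ⟨m', hm1', hm2', hm3'⟩ := hw2.symm (insert u (m.toFinset ∪ X))
  refine ⟨m ++ w :: m', ?_, hm2.trans hm2' ?_ ?_ ?_ ?_, ?_⟩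
  · simp; omega
  · intro x hx hx'
    have := hm3' x hx
    simp [hx'] at this
  · intro hx
    have := hm3' u hx
    simp at this
  · intro hx
    have := hm3 v hx
    simp at this
  · exact fun h => hvu h.symm
  · intro x hx
    simp only [List.mem_append, List.mem_cons] at hx
    rcases hx with hx | hx | hx
    · have := hm3 x hx
      simp only [Finset.mem_insert, not_or] at this
      exact this.2
    · rw [hx]; exact hw3.2.2
    · have := hm3' x hx
      simp only [Finset.mem_insert, Finset.mem_union, not_or] at this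
      exact this.2.2

theorem GE.add (hW : NP W) {l l' : ℕ} (h : GE G W l) (h' : GF G W l') : GE G W (l + l') := by
  classical
  refine h.mono fun u hu => ?_
  obtain ⟨v, ⟨m, hm1, hm2⟩, hv⟩ := (hu.and h').exists
  have h4 := hW.notMem (insert u (insert v m.toFinset))
  filter_upwards [hv, h4] with w hw hw3
  simp only [Finset.mem_insert, not_or, List.mem_toFinset] at hw3
  obtain ⟨m', hm1', hm2', hm3'⟩ := hw (insert u m.toFinset)
  refine ⟨m ++ v :: m', ?_, hm2.trans hm2' ?_ ?_ ?_ ?_⟩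
  · simp; omega
  · intro x hx hx'
    have := hm3' x hx
    simp [hx'] at this
  · intro hx
    have := hm3' u hx
    simp at this
  · exact hw3.2.2
  · exact fun h => hw3.1 h.symm

theorem GF.mul (hW : NP W) {l : ℕ} (h : GF G W l) (k : ℕ) : GF G W (l * (k + 1)) := by
  induction k with
  | zero => simpa using h
  | succ k ih => exact (ih.add hW h)

theorem cyc_of_GE_GF {l l' : ℕ} (h : GE G W l) (h' : GF G W l') : Cyc G (l + l') := by
  obtain ⟨u, hu, hu'⟩ := (h.and h').exists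
  obtain ⟨v, ⟨m, hm1, hm2⟩, hv⟩ := (hu.and hu').exists
  rw [← hm1]
  exact cyc_of_flex hm2 hv.symm

theorem cyc_of_GF2 (hW : NP W) (h : GF G W 2) {r : ℕ} (hr : 2 ≤ r) : Cyc G (2 * r) := by
  have h1 := cyc_of_GE_GF h.ge (h.mul hW (r - 2))
  have e : 2 + 2 * (r - 2 + 1) = 2 * r := by omega
  rwa [e] at h1

theorem cyc_of_GF4 (hW : NP W) (h : GF G W 4) {t : ℕ} (ht : t = 2 ∨ t = 6) (h2 : GE G W t)
    {r : ℕ} (hr : 4 ≤ r) : Cyc G (2 * r) := by
  rcases Nat.even_or_odd' r with ⟨k, rfl | rfl⟩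
  · have h1 := cyc_of_GE_GF h.ge (h.mul hW (k - 2))
    have e : 4 + 4 * (k - 2 + 1) = 2 * (2 * k) := by omega
    rwa [e] at h1
  · rcases ht with rfl | rfl
    · have h1 := cyc_of_GE_GF h2 (h.mul hW (k - 1))
      have e : 2 + 4 * (k - 1 + 1) = 2 * (2 * k + 1) := by omega
      rwa [e] at h1
    · have h1 := cyc_of_GE_GF h2 (h.mul hW (k - 2))
      have e : 6 + 4 * (k - 2 + 1) = 2 * (2 * k + 1) := by omega
      rwa [e] at h1

theorem Thin.notAdj (h : Thin G U) (X : Finset V) :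
    ∀ᶠ v in (U : Filter V), ∀ z ∈ X, ¬ G.Adj z v :=
  (Filter.eventually_all_finset X).2 (fun x _ => h x)

theorem rich_pair (hU : NP U) (hT : Thin G U) {x x' : V} (hne : x ≠ x')
    (hx : Rich G U x) (hx' : Rich G U x') : Flex G 2 x x' ∨ Flex G 4 x x' := by
  classical
  by_cases h : ∀ᶠ v in (U : Filter V), ∃ y, G.Adj x y ∧ G.Adj y v ∧ G.Adj x' y
  · left
    intro X
    obtain ⟨v, ⟨y, h1, h2, h3⟩, h4⟩ := (h.and (hT.notAdj X)).exists
    refine ⟨[y], rfl, ⟨?_, ?_⟩, ?_⟩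
    · simp [h1, h3.symm]
    · simp [h1.ne, hne, h3.ne']
    · intro z hz
      simp only [List.mem_singleton] at hz
      subst hz
      exact fun hz => h4 z hz h2
  · right
    rw [← Ultrafilter.eventually_not] at h
    intro X
    have hX := hT.notAdj (insert x (insert x' X))
    have hX2 := hU.notMem (insert x (insert x' X))
    obtain ⟨v, h1, ⟨y, hy1, hy2⟩, ⟨y', hy1', hy2'⟩, h2, h3⟩ :=
      (h.and (hx.and (hx'.and (hX.and hX2)))).exists
    simp only [Finset.mem_insert, not_or, forall_eq_or_imp] at h2 h3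
    have hyy : y ≠ y' := by
      rintro rfl
      exact h1 ⟨y, hy1, hy2, hy1'⟩
    have e1 : x ≠ y' := by rintro rfl; exact h2.1 hy2'
    have e2 : y ≠ x' := by rintro rfl; exact h2.2.1 hy2
    refine ⟨[y, v, y'], rfl, ⟨?_, ?_⟩, ?_⟩
    · simp [hy1, hy2, hy1'.symm, hy2'.symm]
    · simp [hy1.ne, hne, hyy, e1, e2, hy2.ne, hy2'.ne', hy1'.ne', h3.2.1, Ne.symm h3.1]
    · intro z hz
      simp only [List.mem_cons, List.not_mem_nil, or_false] at hz
      rcases hz with rfl | rfl | rfl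
      · exact fun hz => h2.2.2 _ hz hy2
      · exact h3.2.2
      · exact fun hz => h2.2.2 _ hz hy2'


/-- generic three-step paths from a poor vertex -/
theorem poor_path (hU : NP U) (hT : Thin G U) (hD : Diam3 G) {u : V} (hu : Poor G U u)
    (X : Finset V) : ∀ᶠ v in (U : Filter V),
      (v ∉ X ∧ v ≠ u ∧ ¬ G.Adj u v) ∧ (∀ z ∈ X, ¬ G.Adj z v) ∧
      (¬ ∃ y, G.Adj u y ∧ G.Adj y v) ∧
      (∃ x y, G.Adj u x ∧ G.Adj x y ∧ G.Adj y v) ∧
      (∀ x y, G.Adj u x → G.Adj x y → G.Adj y v → x ∉ X ∧ y ∉ X) := by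
  classical
  have h1 : ∀ᶠ v in (U : Filter V), ¬ ∃ y, G.Adj u y ∧ G.Adj y v :=
    Ultrafilter.eventually_not.2 hu.1
  have h2 : ∀ᶠ v in (U : Filter V), ∀ z ∈ X, G.Adj u z → ¬ ∃ y, G.Adj z y ∧ G.Adj y v := by
    refine (Filter.eventually_all_finset X).2 (fun z _ => ?_)
    by_cases hz : G.Adj u z
    · exact (Ultrafilter.eventually_not.2 (hu.2 z hz)).mono fun v hv _ => hv
    · exact Filter.Eventually.of_forall fun v h => absurd h hz
  filter_upwards [h1, h2, hT.notAdj X, hU.notMem X, hU u, hT u] with v hv1 hv2 hv3 hv4 hv5 hv6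
  refine ⟨⟨hv4, hv5, hv6⟩, hv3, hv1, ?_, ?_⟩
  · rcases hD u v with h | h | h | h
    · exact absurd h.symm hv5
    · exact absurd h hv6
    · exact absurd h hv1
    · exact h
  · intro x y hx hxy hy
    exact ⟨fun hxX => hv2 x hxX hx ⟨y, hxy, hy⟩, fun hyX => hv3 y hyX hy⟩

theorem poor_disjoint (hU : NP U) (hT : Thin G U) (hD : Diam3 G) {u u' : V} (hne : u ≠ u')
    (hu : Poor G U u) (hu' : Poor G U u') (h2 : ¬ Flex G 2 u u') (h4 : ¬ Flex G 4 u u') :
    ∀ᶠ v in (U : Filter V), ∀ x y x' y', G.Adj u x → G.Adj x y → G.Adj y v →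
      G.Adj u' x' → G.Adj x' y' → G.Adj y' v → x ≠ x' ∧ y ≠ y' ∧ x ≠ y' ∧ y ≠ x' := by
  classical
  unfold Flex at h2 h4
  push Not at h2 h4
  obtain ⟨X2, h2⟩ := h2
  obtain ⟨X4, h4⟩ := h4
  have e1 := poor_path hU hT hD hu (insert u' (X2 ∪ X4))
  have e2 := poor_path hU hT hD hu' (insert u (X2 ∪ X4))
  filter_upwards [e1, e2] with v hv hv'
  intro x y x' y' a1 a2 a3 b1 b2 b3
  obtain ⟨⟨p1, p2, p3⟩, p4, p5, -, p6⟩ := hv
  obtain ⟨⟨q1, q2, q3⟩, q4, q5, -, q6⟩ := hv'
  have c1 := p6 x y a1 a2 a3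
  have c2 := q6 x' y' b1 b2 b3
  simp only [Finset.mem_insert, Finset.mem_union, not_or] at c1 c2
  have hxx : x ≠ x' := by
    rintro rfl
    obtain ⟨z, hz, hz'⟩ := h2 [x] rfl ⟨by simp [a1, b1.symm], by simp [a1.ne, hne, b1.ne']⟩
    simp only [List.mem_singleton] at hz
    subst hz
    exact c1.1.2.1 hz'
  refine ⟨hxx, ?_, ?_, ?_⟩
  · rintro rfl
    have d1 : u ≠ y := by rintro rfl; exact p3 a3
    have d2 : y ≠ u' := by rintro rfl; exact q3 a3
    obtain ⟨z, hz, hz'⟩ := h4 [x, y, x'] rfl ⟨by simp [a1, a2, b1.symm, b2.symm], by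
      simp [a1.ne, hne, b1.ne', d1, d2, a2.ne, b2.ne', hxx, c1.1.1, Ne.symm c2.1.1]⟩
    simp only [List.mem_cons, List.not_mem_nil, or_false] at hz
    rcases hz with rfl | rfl | rfl
    · exact c1.1.2.2 hz'
    · exact c1.2.2.2 hz'
    · exact c2.1.2.2 hz'
  · rintro rfl
    exact p5 ⟨x, a1, b3⟩
  · rintro rfl
    exact q5 ⟨y, b1, a3⟩

/-- GE 6 for poor vertices -/
theorem poor_GE6 (hU : NP U) (hT : Thin G U) (hD : Diam3 G)
    (hP : ∀ᶠ u in (U : Filter V), Poor G U u) : GE G U 6 := by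
  classical
  refine hP.mono fun u1 hu1 => ?_
  obtain ⟨u2, hu2, ⟨⟨-, p2, p3⟩, -, p5, ⟨x, y, a1, a2, a3⟩, -⟩⟩ :=
    (hP.and (poor_path hU hT hD hu1 ∅)).exists
  refine (poor_path hU hT hD hu2 {u1, x, y}).mono fun u3 hu3 => ?_
  obtain ⟨⟨q1, q2, q3⟩, q4, q5, ⟨x', y', b1, b2, b3⟩, q6⟩ := hu3
  have c := q6 x' y' b1 b2 b3
  simp only [Finset.mem_insert, Finset.mem_singleton, not_or, forall_eq_or_imp, forall_eq] at c q1 q4
  refine ⟨[x, y, u2, x', y'], rfl, ⟨by simp [a1, a2, a3, b1, b2, b3], ?_⟩⟩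
  have d1 : u1 ≠ y := by rintro rfl; exact p3 a3
  have d2 : x ≠ u2 := by rintro rfl; exact p3 a1
  have d3 : u2 ≠ y' := by rintro rfl; exact q3 b3
  have d4 : x' ≠ u3 := by rintro rfl; exact q3 b1
  simp [a1.ne, a2.ne, a3.ne, b1.ne, b2.ne, b3.ne, d1, d2, d3, d4, Ne.symm p2, Ne.symm q2,
    Ne.symm c.1.1, Ne.symm c.1.2.1, Ne.symm c.1.2.2, Ne.symm c.2.1, Ne.symm c.2.2.1,
    Ne.symm c.2.2.2, Ne.symm q1.1, Ne.symm q1.2.1, Ne.symm q1.2.2]

theorem GF_or_of {l l' : ℕ} (h : ∀ᶠ u in (W : Filter V), ∀ᶠ v in (W : Filter V),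
    Flex G l u v ∨ Flex G l' u v) : GF G W l ∨ GF G W l' := by
  rw [GF, GF, ← Ultrafilter.eventually_or]
  exact h.mono fun u hu => Ultrafilter.eventually_or.1 hu

/-- If generic vertices for `W` are rich then we get flexible paths of length 2 or 4. -/
theorem GF_of_rich (hU : NP U) (hT : Thin G U) (hW : NP W)
    (h : ∀ᶠ x in (W : Filter V), Rich G U x) : GF G W 2 ∨ GF G W 4 := by
  apply GF_or_of
  refine h.mono fun x hx => ?_
  filter_upwards [h, hW x] with x' hx' hne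
  exact rich_pair hU hT (Ne.symm hne) hx hx'

/-- The map to rich neighbours gives `GE 2` or `GE 6`. -/
theorem rich_nbr_GE (hU : NP U) (hT : Thin G U) (f : V → V)
    (hf : ∀ᶠ u in (U : Filter V), G.Adj u (f u) ∧ Rich G U (f u)) :
    NP (U.map f) ∧ (GE G (U.map f) 2 ∨ GE G (U.map f) 6) := by
  classical
  have hW : NP (U.map f) := by
    intro x
    rw [Ultrafilter.coe_map, Filter.eventually_map]
    filter_upwards [hf, hT x] with u hu hx h
    exact hx (h ▸ hu.1.symm)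
  refine ⟨hW, ?_⟩
  by_cases hA : ∀ᶠ u in (U : Filter V), ∀ᶠ v in (U : Filter V), G.Adj (f u) (f v)
  · left
    rw [GE, Ultrafilter.coe_map, Filter.eventually_map]
    refine hA.mono fun u hu => ?_
    rw [Filter.eventually_map]
    obtain ⟨v, hv, hv'⟩ := (hA.and hu).exists
    have := hW (f u)
    rw [Ultrafilter.coe_map, Filter.eventually_map] at this
    filter_upwards [hv, this] with w hw hne
    exact ⟨[f v], rfl, by simp [hv', hw], by simp [hv'.ne, hw.ne, Ne.symm hne]⟩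
  · right
    rw [← Ultrafilter.eventually_not] at hA
    have hA' : ∀ᶠ u in (U : Filter V), ∀ᶠ v in (U : Filter V), ¬ G.Adj (f u) (f v) :=
      hA.mono fun u hu => Ultrafilter.eventually_not.2 hu
    rw [GE, Ultrafilter.coe_map, Filter.eventually_map]
    filter_upwards [hf, hA'] with u1 hu1 hn1
    rw [Filter.eventually_map]
    have hW1 := hW (f u1)
    rw [Ultrafilter.coe_map, Filter.eventually_map] at hW1
    obtain ⟨u2, ⟨hu2, hu2'⟩, hn2, ⟨y, hy1, hy2⟩, hn12, hne12, hne2, hT2⟩ :=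
      (hf.and (hA'.and (hu1.2.and (hn1.and (hW1.and ((hU (f u1)).and (hT (f u1)))))))).exists
    have hX := hW.notMem {f u1, y, u2, f u2}
    rw [Ultrafilter.coe_map, Filter.eventually_map] at hX
    filter_upwards [hf, hn2, hu2', hU.notMem {f u1, y, u2, f u2}, hX,
      hT.notAdj {f u1, y, u2, f u2}] with u3 hu3 hn3 hr3 hm3 hX3 hT3
    obtain ⟨y', hy1', hy2'⟩ := hr3
    simp only [Finset.mem_insert, Finset.mem_singleton, not_or, forall_eq_or_imp, forall_eq]
      at hm3 hX3 hT3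
    refine ⟨[y, u2, f u2, y', u3], rfl, by simp [hy1, hy2, hu2, hy1', hy2', hu3.1], ?_⟩
    have d1 : y ≠ f u2 := by rintro rfl; exact hn12 hy1
    have d2 : f u1 ≠ y' := by rintro rfl; exact hT3.1 hy2'
    have d3 : y ≠ y' := by rintro rfl; exact hT3.2.1 hy2'
    have d4 : u2 ≠ y' := by rintro rfl; exact hT3.2.2.1 hy2'
    have d5 : y' ≠ f u3 := by rintro rfl; exact hn3 hy1'
    simp [hy1.ne, hy2.ne, hu2.ne, hy1'.ne, hy2'.ne, hu3.1.ne, d1, d2, d3, d4, d5, Ne.symm hne12,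
      Ne.symm hne2, Ne.symm hm3.1, Ne.symm hm3.2.1, Ne.symm hm3.2.2.1, Ne.symm hm3.2.2.2,
      Ne.symm hX3.1, Ne.symm hX3.2.1, Ne.symm hX3.2.2.1, Ne.symm hX3.2.2.2]

/-- The case analysis: no `2r`-cycle and no hub means that generic vertices are poor and that
generic pairs are not joined by flexible paths of length 2 or 4. -/
theorem case_analysis (hU : NP U) (hT : Thin G U) (hD : Diam3 G) {r : ℕ} (hr : 4 ≤ r)
    (hC : ¬ Cyc G (2 * r)) :
    (∀ᶠ u in (U : Filter V), Poor G U u) ∧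
      ∀ᶠ u in (U : Filter V), ∀ᶠ v in (U : Filter V), ¬ Flex G 2 u v ∧ ¬ Flex G 4 u v := by
  classical
  have hP : ∀ᶠ u in (U : Filter V), Poor G U u := by
    by_contra hcon
    rw [← Ultrafilter.eventually_not] at hcon
    have : ∀ᶠ u in (U : Filter V), Rich G U u ∨ ∃ x, G.Adj u x ∧ Rich G U x := by
      refine hcon.mono fun u hu => ?_
      unfold Poor at hu
      by_cases h : Rich G U u
      · exact Or.inl h
      · right
        by_contra h'
        push Not at h'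
        exact hu ⟨h, h'⟩
    rcases Ultrafilter.eventually_or.1 this with h | h
    · have hE : GE G U 2 := by
        refine h.mono fun u hu => ?_
        filter_upwards [hu, hU u] with v hv hne
        obtain ⟨y, h1, h2⟩ := hv
        exact ⟨[y], rfl, by simp [h1, h2], by simp [h1.ne, h2.ne, Ne.symm hne]⟩
      rcases GF_of_rich hU hT hU h with h' | h'
      · exact hC (cyc_of_GF2 hU h' (by omega))
      · exact hC (cyc_of_GF4 hU h' (Or.inl rfl) hE hr)
    · have hch : ∃ f : V → V, ∀ᶠ u in (U : Filter V), G.Adj u (f u) ∧ Rich G U (f u) := by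
        choose! f hf using fun (u : V) (h : ∃ x, G.Adj u x ∧ Rich G U x) => h
        exact ⟨f, h.mono fun u hu => hf u hu⟩
      obtain ⟨f, hf⟩ := hch
      obtain ⟨hW, hE⟩ := rich_nbr_GE hU hT f hf
      have hR : ∀ᶠ x in ((U.map f : Ultrafilter V) : Filter V), Rich G U x := by
        rw [Ultrafilter.coe_map, Filter.eventually_map]
        exact hf.mono fun u hu => hu.2
      rcases GF_of_rich hU hT hW hR with h' | h'
      · exact hC (cyc_of_GF2 hW h' (by omega))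
      · rcases hE with hE | hE
        · exact hC (cyc_of_GF4 hW h' (Or.inl rfl) hE hr)
        · exact hC (cyc_of_GF4 hW h' (Or.inr rfl) hE hr)
  refine ⟨hP, ?_⟩
  by_contra hcon
  rw [← Ultrafilter.eventually_not] at hcon
  have hcon' : ∀ᶠ u in (U : Filter V), ∀ᶠ v in (U : Filter V), Flex G 2 u v ∨ Flex G 4 u v := by
    refine hcon.mono fun u hu => ?_
    rw [← Ultrafilter.eventually_not] at hu
    refine hu.mono fun v hv => ?_
    tauto
  rcases GF_or_of hcon' with h | h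
  · exact hC (cyc_of_GF2 hU h (by omega))
  · exact hC (cyc_of_GF4 hU h (Or.inr rfl) (poor_GE6 hU hT hD hP) hr)

end Pool.Agent.H56.Td
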