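import Mathlib

/-!
Rooted forests and treedepth.
-/

set_option autoImplicit false

namespace Pool.Agent.H56.Td

/-- A rooted forest with vertex set `V`: every vertex `v` has a parent or is a root
(`parent v = none`), and `level v` is the number of vertices on the path from `v` to the root of
its tree (so roots have level `1` and a child has the level of its parent plus one). -/
structure RootedForest (V : Type*) where
  parent : V → Option V
  level : V → ℕ
  level_root : ∀ v, parent v = none → level v = 1
  level_child : ∀ v u, parent v = some u → level v = level u + 1

/-- `u` is an ancestor of `v`, or equal to `v`. -/
def RootedForest.IsAncestor {V : Type*} (T : RootedForest V) (u v : V) : Prop :=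
  Relation.ReflTransGen (fun a b => T.parent b = some a) u v

/-- The height of the forest (the maximum number of vertices on a root-to-leaf path) is at
most `h`. -/
def RootedForest.HeightLE {V : Type*} (T : RootedForest V) (h : ℕ) : Prop :=
  ∀ v, T.level v ≤ h

/-- The treedepth of a (finite) graph: the least `h` such that there is a rooted forest on the
vertex set of height at most `h` in which the two ends of every edge are in
ancestor-descendant relation. -/
noncomputable def treedepth {V : Type*} (G : SimpleGraph V) : ℕ :=
  sInf {h | ∃ T : RootedForest V, T.HeightLE h ∧
    ∀ u v, G.Adj u v → T.IsAncestor u v ∨ T.IsAncestor v u}

end Pool.Agent.H56.Td
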