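import Pool.Agent.H56.Td.Defs

/-!
Graphs without long paths have small treedepth.
-/

set_option autoImplicit false

namespace Pool.Agent.H56.Td

variable {V : Type*} (G : SimpleGraph V)

/-- reachability inside `S` -/
def Reach (S : Set V) (v x : V) : Prop :=
  Relation.ReflTransGen (fun a b => G.Adj a b ∧ b ∈ S) v x

def Anc (par : V → Option V) (u v : V) : Prop :=
  Relation.ReflTransGen (fun a b => par b = some a) u v

def IsTree (S : Set V) (v : V) (n : ℕ) (par : V → Option V) (lev : V → ℕ) : Prop :=
  par v = none ∧ lev v = 1 ∧ (∀ y ∈ S, y ≠ v → ∃ z ∈ S, par y = some z ∧ lev y = lev z + 1) ∧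
  (∀ y ∈ S, lev y ≤ n) ∧
  (∀ y ∈ S, ∀ z ∈ S, G.Adj y z → Anc par y z ∨ Anc par z y)

variable {G}

theorem Reach.symm {S : Set V} {v x : V} (hv : v ∈ S) (h : Reach G S v x) : Reach G S x v := by
  induction h with
  | refl => exact Relation.ReflTransGen.refl
  | @tail b c hb hbc ih =>
    refine Relation.ReflTransGen.head (b := b) ⟨hbc.1.symm, ?_⟩ ih
    rcases Relation.ReflTransGen.cases_tail hb with h | ⟨d, _, hd⟩
    · rw [h]; exact hv
    · exact hd.2

theorem Reach.mem {S : Set V} {v x : V} (hv : v ∈ S) (h : Reach G S v x) : x ∈ S := by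
  rcases Relation.ReflTransGen.cases_tail h with h | ⟨d, _, hd⟩
  · rw [h]; exact hv
  · exact hd.2

theorem exists_tree (n : ℕ) : ∀ (S : Set V) (v : V), v ∈ S → (∀ x ∈ S, Reach G S v x) →
    (∀ l : List V, (v :: l).IsChain G.Adj → (v :: l).Nodup → (∀ x ∈ l, x ∈ S) → l.length < n) →
    ∃ par lev, IsTree G S v n par lev := by
  classical
  induction n with
  | zero =>
    intro S v _ _ h
    have := h [] (by simp) (by simp) (by simp)
    simp at this
  | succ n ih =>
    intro S v hv hconn hpath
    let T : Set V := S \ {v}
    let C : V → Set V := fun x => {y | y ∈ T ∧ Reach G T x y}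
    have hCself : ∀ x ∈ T, x ∈ C x := fun x hx => ⟨hx, Relation.ReflTransGen.refl⟩
    have hCT : ∀ x, C x ⊆ T := fun x y hy => hy.1
    have hCeq : ∀ x ∈ T, ∀ y ∈ C x, C y = C x := by
      intro x hx y hy
      ext z
      constructor
      · intro hz
        exact ⟨hz.1, Relation.ReflTransGen.trans hy.2 hz.2⟩
      · intro hz
        exact ⟨hz.1, Relation.ReflTransGen.trans (Reach.symm hx hy.2) hz.2⟩
    have hroot : ∀ x, Reach G S v x → x ≠ v → ∃ w, G.Adj v w ∧ w ∈ T ∧ Reach G T w x := by
      intro x hx
      induction hx with
      | refl => intro h; exact absurd rfl h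
      | @tail b c hb hbc ih2 =>
        intro hcv
        by_cases hbv : b = v
        · subst hbv
          exact ⟨c, hbc.1, ⟨hbc.2, hcv⟩, Relation.ReflTransGen.refl⟩
        · obtain ⟨w, h1, h2, h3⟩ := ih2 hbv
          exact ⟨w, h1, h2, Relation.ReflTransGen.tail h3 ⟨hbc.1, hbc.2, hcv⟩⟩
    have hT : ∀ x ∈ T, ∃ w ∈ C x, ∃ par lev, IsTree G (C x) w n par lev := by
      intro x hx
      obtain ⟨w, h1, h2, h3⟩ := hroot x (hconn x hx.1) hx.2
      have hwC : w ∈ C x := ⟨h2, Reach.symm h2 h3⟩
      refine ⟨w, hwC, ih (C x) w hwC ?_ ?_⟩
      · intro y hy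
        have hwy : Reach G T w y := Relation.ReflTransGen.trans h3 hy.2
        clear hy
        induction hwy with
        | refl => exact Relation.ReflTransGen.refl
        | @tail b c hb hbc ih2 =>
          refine Relation.ReflTransGen.tail ih2 ⟨hbc.1, hbc.2, ?_⟩
          exact Relation.ReflTransGen.tail (Relation.ReflTransGen.trans hwC.2 hb) hbc
      · intro l hl1 hl2 hl3
        have hvw : v ∉ (w :: l) := by
          intro hmem
          rcases List.mem_cons.1 hmem with h | h
          · exact h2.2 h.symm
          · exact (hl3 v h).1.2 rfl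
        have := hpath (w :: l) (List.isChain_cons_cons.2 ⟨h1, hl1⟩)
          (List.nodup_cons.2 ⟨hvw, hl2⟩) (by
            intro x hx
            rcases List.mem_cons.1 hx with h | h
            · rw [h]; exact h2.1
            · exact (hl3 x h).1.1)
        simp only [List.length_cons] at this
        omega
    choose! w hw par lev htree using hT
    -- choices depending only on the component
    let rep : Set V → V := fun D => if h : D.Nonempty then h.some else v
    have hrep : ∀ x ∈ T, rep (C x) ∈ C x := by
      intro x hx
      have : (C x).Nonempty := ⟨x, hCself x hx⟩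
      simp only [rep, dif_pos this]
      exact this.some_mem
    have hrepT : ∀ x ∈ T, rep (C x) ∈ T := fun x hx => hCT x (hrep x hx)
    have hrepC : ∀ x ∈ T, C (rep (C x)) = C x := fun x hx => hCeq x hx _ (hrep x hx)
    let par' : V → Option V := fun y =>
      if y = v then none else (par (rep (C y)) y).elim (some v) some
    let lev' : V → ℕ := fun y => if y = v then 1 else lev (rep (C y)) y + 1
    have key : ∀ y ∈ T, (par' y = some v ∧ lev' y = 2) ∨
        ∃ z ∈ T, z ∈ C y ∧ par (rep (C y)) y = some z ∧ par' y = some z ∧
          lev' y = lev' z + 1 := by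
      intro y hy
      have hyv : y ≠ v := hy.2
      obtain ⟨t1, t2, t3, t4, t5⟩ := htree (rep (C y)) (hrepT y hy)
      rw [hrepC y hy] at t3 t4 t5
      by_cases hyw : y = w (rep (C y))
      · left
        have e1 : par (rep (C y)) y = none := by
          rw [← hyw] at t1
          exact t1
        have e2 : lev (rep (C y)) y = 1 := by
          rw [← hyw] at t2
          exact t2
        simp only [par', lev', if_neg hyv, e1, e2, Option.elim]
        exact ⟨trivial, trivial⟩
      · right
        obtain ⟨z, hz1, hz2, hz3⟩ := t3 y (hCself y hy) hyw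
        have hzT : z ∈ T := hCT y hz1
        have hzv : z ≠ v := hzT.2
        refine ⟨z, hzT, hz1, hz2, ?_, ?_⟩
        · simp only [par', if_neg hyv, hz2, Option.elim]
        · simp only [lev', if_neg hyv, if_neg hzv, hCeq y hy z hz1, hz3]
    have hlev : ∀ y ∈ S, lev' y ≤ n + 1 := by
      intro y hy
      by_cases hyv : y = v
      · simp [lev', hyv]
      · have hyT : y ∈ T := ⟨hy, hyv⟩
        obtain ⟨t1, t2, t3, t4, t5⟩ := htree (rep (C y)) (hrepT y hyT)
        rw [hrepC y hyT] at t4
        have := t4 y (hCself y hyT)
        simp only [lev', if_neg hyv]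
        omega
    have hancv : ∀ m : ℕ, ∀ y ∈ S, lev' y ≤ m → Anc par' v y := by
      intro m
      induction m with
      | zero =>
        intro y hy hm
        by_cases hyv : y = v
        · rw [hyv]; exact Relation.ReflTransGen.refl
        · simp [lev', hyv] at hm
      | succ m ihm =>
        intro y hy hm
        by_cases hyv : y = v
        · rw [hyv]; exact Relation.ReflTransGen.refl
        · rcases key y ⟨hy, hyv⟩ with ⟨k1, k2⟩ | ⟨z, z1, z2, z3, z4, z5⟩
          · exact Relation.ReflTransGen.single k1
          · exact Relation.ReflTransGen.tail (ihm z z1.1 (by omega)) z4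
    have hanc : ∀ x ∈ T, ∀ a b, Anc (par (rep (C x))) a b → b ∈ C x → Anc par' a b ∧ a ∈ C x := by
      intro x hx a b hab
      induction hab with
      | refl => exact fun h => ⟨Relation.ReflTransGen.refl, h⟩
      | @tail b c hb hbc ih2 =>
        intro hc
        have hcT : c ∈ T := hCT x hc
        have hCc : C c = C x := hCeq x hx c hc
        rcases key c hcT with ⟨k1, k2⟩ | ⟨z, z1, z2, z3, z4, z5⟩
        · exfalso
          have hcv : c ≠ v := hcT.2
          simp only [par', if_neg hcv, hCc] at k1
          change par (rep (C x)) c = some b at hbc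
          rw [hbc] at k1
          simp only [Option.elim, Option.some.injEq] at k1
          -- then `b = v`, but `b` must be in `C x`
          obtain ⟨t1, t2, t3, t4, t5⟩ := htree (rep (C x)) (hrepT x hx)
          rw [hrepC x hx] at t3
          by_cases hcw : c = w (rep (C x))
          · rw [← hcw] at t1
            rw [t1] at hbc
            exact absurd hbc (by simp)
          · obtain ⟨z, hz1, hz2, hz3⟩ := t3 c hc hcw
            rw [hbc] at hz2
            have : b = z := by simpa using hz2
            rw [← this] at hz1
            exact (hCT x hz1).2 k1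
        · rw [hCc] at z2 z3
          change par (rep (C x)) c = some b at hbc
          rw [hbc] at z3
          have hbz : b = z := by simpa using z3
          subst hbz
          obtain ⟨r1, r2⟩ := ih2 z2
          exact ⟨Relation.ReflTransGen.tail r1 z4, r2⟩
    refine ⟨par', lev', by simp [par'], by simp [lev'], ?_, hlev, ?_⟩
    · intro y hy hyv
      rcases key y ⟨hy, hyv⟩ with ⟨k1, k2⟩ | ⟨z, z1, z2, z3, z4, z5⟩
      · exact ⟨v, hv, k1, by rw [k2]; simp [lev']⟩
      · exact ⟨z, z1.1, z4, z5⟩
    · intro y hy z hz hyz
      by_cases hyv : y = v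
      · left; rw [hyv]; exact hancv _ z hz le_rfl
      by_cases hzv : z = v
      · right; rw [hzv]; exact hancv _ y hy le_rfl
      have hyT : y ∈ T := ⟨hy, hyv⟩
      have hzC : z ∈ C y := ⟨⟨hz, hzv⟩, Relation.ReflTransGen.single ⟨hyz, hz, hzv⟩⟩
      obtain ⟨t1, t2, t3, t4, t5⟩ := htree (rep (C y)) (hrepT y hyT)
      rw [hrepC y hyT] at t5
      rcases t5 y (hCself y hyT) z hzC hyz with h | h
      · exact Or.inl (hanc y hyT y z h hzC).1
      · exact Or.inr (hanc y hyT z y h (hCself y hyT)).1

/-- A preconnected graph in which every path starting at `v` has at most `n` vertices has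
treedepth at most `n`. -/
theorem treedepth_le (hG : G.Preconnected) (v : V) (n : ℕ)
    (h : ∀ l : List V, (v :: l).IsChain G.Adj → (v :: l).Nodup → l.length < n) :
    treedepth G ≤ n := by
  have hwalk : ∀ (a b : V) (p : G.Walk a b), Reach G Set.univ a b := by
    intro a b p
    induction p with
    | nil => exact Relation.ReflTransGen.refl
    | cons hadj p ih => exact Relation.ReflTransGen.head ⟨hadj, Set.mem_univ _⟩ ih
  have hreach : ∀ x, Reach G Set.univ v x := by
    intro x
    obtain ⟨p⟩ := hG v x
    exact hwalk _ _ p
  obtain ⟨par, lev, h1, h2, h3, h4, h5⟩ := exists_tree n Set.univ v (Set.mem_univ v)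
    (fun x _ => hreach x) (fun l h1 h2 _ => h l h1 h2)
  apply Nat.sInf_le
  refine ⟨⟨par, lev, ?_, ?_⟩, fun v => h4 v (Set.mem_univ v), fun u v huv =>
    h5 u (Set.mem_univ u) v (Set.mem_univ v) huv⟩
  · intro x hx
    by_cases hxv : x = v
    · rw [hxv]; exact h2
    · obtain ⟨z, _, hz, _⟩ := h3 x (Set.mem_univ x) hxv
      rw [hx] at hz
      exact absurd hz (by simp)
  · intro x u hx
    by_cases hxv : x = v
    · rw [hxv, h1] at hx
      exact absurd hx (by simp)
    · obtain ⟨z, _, hz, hz'⟩ := h3 x (Set.mem_univ x) hxv
      rw [hx] at hz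
      have : u = z := by simpa using hz
      rw [this]
      exact hz'

/-- For a finite graph the set in the definition of `treedepth` is nonempty, so the treedepth is
attained by a rooted forest. -/
theorem treedepth_attained [Finite V] (G : SimpleGraph V) :
    ∃ T : RootedForest V, T.HeightLE (treedepth G) ∧
      ∀ u v, G.Adj u v → T.IsAncestor u v ∨ T.IsAncestor v u := by
  classical
  obtain ⟨n, ⟨e⟩⟩ := Finite.exists_equiv_fin V
  let T : RootedForest V :=
    { parent := fun v => if h : (e v).val = 0 then none
        else some (e.symm ⟨(e v).val - 1, by have := (e v).isLt; omega⟩)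
      level := fun v => (e v).val + 1
      level_root := by
        intro v hv
        by_cases h : (e v).val = 0
        · simp [h]
        · simp [h] at hv
      level_child := by
        intro v u hv
        by_cases h : (e v).val = 0
        · simp [h] at hv
        · simp only [h, dite_false, Option.some.injEq] at hv
          rw [← hv]
          simp only [Equiv.apply_symm_apply]
          omega }
  have hanc : ∀ m : ℕ, ∀ u v : V, (e v).val = (e u).val + m → T.IsAncestor u v := by
    intro m
    induction m with
    | zero =>
      intro u v h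
      have : u = v := e.injective (Fin.ext (by omega))
      rw [this]
      exact Relation.ReflTransGen.refl
    | succ m ih =>
      intro u v h
      have h0 : (e v).val ≠ 0 := by omega
      refine Relation.ReflTransGen.tail
        (ih u (e.symm ⟨(e v).val - 1, by have := (e v).isLt; omega⟩) ?_) ?_
      · simp only [Equiv.apply_symm_apply]
        omega
      · simp [T, h0]
  have hne : {h | ∃ T : RootedForest V, T.HeightLE h ∧
      ∀ u v, G.Adj u v → T.IsAncestor u v ∨ T.IsAncestor v u}.Nonempty := by
    refine ⟨n, T, fun v => (e v).isLt, fun u v _ => ?_⟩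
    rcases le_total (e u).val (e v).val with h | h
    · exact Or.inl (hanc ((e v).val - (e u).val) u v (by omega))
    · exact Or.inr (hanc ((e u).val - (e v).val) v u (by omega))
  exact Nat.sInf_mem hne

end Pool.Agent.H56.Td
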