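import Pool.Agent.H56.Td.Sub2

/-!
Second level: subdivision vertices of a two-subdivision.
-/

set_option autoImplicit false

namespace Pool.Agent.H56.Td

open Filter

variable {V : Type*} {G : SimpleGraph V}

theorem hyper_ne_of_inj {f : ℕ → V} (hf : ∀ i j, f i = f j → i = j) (z : V) :
    ∀ᶠ c in (hyperfilter ℕ : Filter ℕ), f c ≠ z := by
  refine Filter.Eventually.filter_mono hyperfilter_le_cofinite ?_
  have h1 : ∀ᶠ c in (cofinite : Filter ℕ), c ∈ Set.univ → f c ∉ ({z} : Finset V) :=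
    eventually_of_injOn (fun i _ j _ h => hf i j h) _
  refine h1.mono fun c hc => ?_
  have := hc trivial
  simpa using this

theorem hyper_ne (a : ℕ) : ∀ᶠ c in (hyperfilter ℕ : Filter ℕ), c ≠ a :=
  hyper_ne_of_inj (f := fun n => n) (fun _ _ h => h) a

theorem K2.hub (K : K2 G) {h : V}
    (hh : ∀ᶠ I in (hyperfilter ℕ : Filter ℕ), G.Adj h (K.w (2 * I) (2 * I + 1)))
    {r : ℕ} (hr : 4 ≤ r) : Cyc G (2 * r) := by
  classical
  have iv := K.inj_v
  have iw := K.inj_w
  have nvw := K.ne_vw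
  have e1 := hyper_ne_of_inj (f := fun I => K.v (2 * I))
    (fun i j hij => by have := iv _ _ hij; omega) h
  have e2 := hyper_ne_of_inj (f := fun I => K.v (2 * I + 1))
    (fun i j hij => by have := iv _ _ hij; omega) h
  have e3 := hyper_ne_of_inj (f := fun I => K.w (2 * I + 1) (2 * I))
    (fun i j hij => by have := iw _ _ _ _ (by omega) (by omega) hij; omega) h
  have e4 := e1.and (e2.and e3)
  obtain ⟨I, hI, I1, I2, I3⟩ := (hh.and e4).exists
  have f1 := hyper_ne_of_inj (f := fun J => K.w (2 * I) (2 * J + 1))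
    (fun i j hij => by have := iw _ _ _ _ (by omega) (by omega) hij; omega) h
  have f2 := hyper_ne_of_inj (f := fun J => K.w (2 * J + 1) (2 * I))
    (fun i j hij => by have := iw _ _ _ _ (by omega) (by omega) hij; omega) h
  have e5 := (hyper_ne I).and (f1.and f2)
  obtain ⟨J, hJ, ⟨J1, J2, J3⟩, J4, J5, J6⟩ := (hh.and (e4.and e5)).exists
  have aI : G.Adj (K.v (2 * I)) (K.w (2 * I) (2 * I + 1)) := K.adj_vw _ _ (by omega)
  have aJ : G.Adj (K.v (2 * J)) (K.w (2 * J) (2 * J + 1)) := K.adj_vw _ _ (by omega)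
  have aJ' : G.Adj (K.v (2 * J + 1)) (K.w (2 * J + 1) (2 * J)) := K.adj_vw _ _ (by omega)
  have wJ : G.Adj (K.w (2 * J) (2 * J + 1)) (K.w (2 * J + 1) (2 * J)) := K.adj_ww _ _ (by omega)
  have n1 : K.w (2 * I) (2 * I + 1) ≠ h := hI.ne'
  have n2 : K.w (2 * J) (2 * J + 1) ≠ h := hJ.ne'
  have hmod : r % 3 = 0 ∨ r % 3 = 1 ∨ r % 3 = 2 := by omega
  rcases hmod with h3 | h3 | h3
  · have := K.cyc3 (k := 2 * (r / 3)) (by omega)
    have e : 3 * (2 * (r / 3)) = 2 * r := by omega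
    rwa [e] at this
  · refine K.cyc_of5' (a := 2 * I) (b := 2 * J + 1) (by omega)
      (m := [K.w (2 * I) (2 * I + 1), h, K.w (2 * J) (2 * J + 1), K.w (2 * J + 1) (2 * J)])
      ⟨?_, ?_⟩ rfl ?_ ?_ hr h3
    · simp [aI, hI.symm, hJ, wJ, aJ'.symm]
    · have n3 : K.w (2 * J + 1) (2 * J) ≠ K.v (2 * J + 1) := K.wv_ne (by omega)
      simp only [List.cons_append, List.nil_append, List.nodup_cons, List.mem_cons,
        List.not_mem_nil, not_or, or_false, not_false_eq_true, and_true, List.nodup_nil]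
      refine ⟨⟨?_, ?_, ?_, ?_, ?_⟩, ⟨?_, ?_, ?_, ?_⟩, ⟨?_, ?_, ?_⟩, ⟨?_, ?_⟩, ?_⟩
      all_goals first
        | assumption
        | (apply Ne.symm; assumption)
        | (apply K.v_ne; omega)
        | (apply K.wv_ne; omega)
        | (apply Ne.symm; apply K.wv_ne; omega)
        | (apply K.w_ne <;> omega)
    · simp only [List.mem_cons, List.not_mem_nil, not_or, or_false]
      refine ⟨?_, ?_, ?_, ?_⟩
      all_goals first
        | assumption
        | (apply K.w_ne <;> omega)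
    · simp only [List.mem_cons, List.not_mem_nil, not_or, or_false]
      refine ⟨?_, ?_, ?_, ?_⟩
      all_goals first
        | assumption
        | (apply K.w_ne <;> omega)
  · refine K.cyc_of4 (a := 2 * I) (b := 2 * J) (by omega)
      (m := [K.w (2 * I) (2 * I + 1), h, K.w (2 * J) (2 * J + 1)])
      ⟨?_, ?_⟩ rfl hr h3
    · simp [aI, hI.symm, hJ, aJ.symm]
    · simp only [List.cons_append, List.nil_append, List.nodup_cons, List.mem_cons,
        List.not_mem_nil, not_or, or_false, not_false_eq_true, and_true, List.nodup_nil]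
      refine ⟨⟨?_, ?_, ?_, ?_⟩, ⟨?_, ?_, ?_⟩, ⟨?_, ?_⟩, ?_⟩
      all_goals first
        | assumption
        | (apply Ne.symm; assumption)
        | (apply K.v_ne; omega)
        | (apply K.wv_ne; omega)
        | (apply Ne.symm; apply K.wv_ne; omega)
        | (apply K.w_ne <;> omega)


theorem K2.chord1 (K : K2 G) {a b c : ℕ} (hab : a ≠ b) (hac : a ≠ c) (hbc : b ≠ c)
    (h : G.Adj (K.w a b) (K.w a c)) {r : ℕ} (hr : 4 ≤ r) (h3 : r % 3 = 1) : Cyc G (2 * r) := by
  refine K.cyc_of5' hbc (m := [K.w b a, K.w a b, K.w a c, K.w c a]) ⟨?_, ?_⟩ rfl ?_ ?_ hr h3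
  · simp [K.adj_vw b a hab.symm, K.adj_ww b a hab.symm, h, K.adj_ww a c hac,
      (K.adj_vw c a hac.symm).symm]
  · simp only [List.cons_append, List.nil_append, List.nodup_cons, List.mem_cons,
      List.not_mem_nil, not_or, or_false, not_false_eq_true, and_true, List.nodup_nil]
    refine ⟨⟨?_, ?_, ?_, ?_, ?_⟩, ⟨?_, ?_, ?_, ?_⟩, ⟨?_, ?_, ?_⟩, ⟨?_, ?_⟩, ?_⟩
    all_goals first
      | (apply K.v_ne; omega)
      | (apply K.wv_ne; omega)
      | (apply Ne.symm; apply K.wv_ne; omega)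
      | (apply K.w_ne <;> omega)
  all_goals
    simp only [List.mem_cons, List.not_mem_nil, not_or, or_false]
    refine ⟨?_, ?_, ?_, ?_⟩
    all_goals (apply K.w_ne <;> omega)

theorem K2.chord2 (K : K2 G) {a b c : ℕ} (hab : a ≠ b) (hac : a ≠ c) (hbc : b ≠ c)
    (h : G.Adj (K.w a b) (K.w b c)) {r : ℕ} (hr : 4 ≤ r) (h3 : r % 3 = 2) : Cyc G (2 * r) := by
  refine K.cyc_of4 hac (m := [K.w a b, K.w b c, K.w c b]) ⟨?_, ?_⟩ rfl hr h3
  · simp [K.adj_vw a b hab, h, K.adj_ww b c hbc, (K.adj_vw c b hbc.symm).symm]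
  · simp only [List.cons_append, List.nil_append, List.nodup_cons, List.mem_cons,
      List.not_mem_nil, not_or, or_false, not_false_eq_true, and_true, List.nodup_nil]
    refine ⟨⟨?_, ?_, ?_, ?_⟩, ⟨?_, ?_, ?_⟩, ⟨?_, ?_⟩, ?_⟩
    all_goals first
      | (apply K.v_ne; omega)
      | (apply K.wv_ne; omega)
      | (apply Ne.symm; apply K.wv_ne; omega)
      | (apply K.w_ne <;> omega)

theorem K2.chord3 (K : K2 G) {a b c : ℕ} (hab : a ≠ b) (hac : a ≠ c) (hbc : b ≠ c)
    (h : G.Adj (K.w a b) (K.w c b)) {r : ℕ} (hr : 4 ≤ r) (h3 : r % 3 = 2) : Cyc G (2 * r) := by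
  refine K.cyc_of4 hab (m := [K.w a b, K.w c b, K.w b c]) ⟨?_, ?_⟩ rfl hr h3
  · simp [K.adj_vw a b hab, h, K.adj_ww c b hbc.symm, (K.adj_vw b c hbc).symm]
  · simp only [List.cons_append, List.nil_append, List.nodup_cons, List.mem_cons,
      List.not_mem_nil, not_or, or_false, not_false_eq_true, and_true, List.nodup_nil]
    refine ⟨⟨?_, ?_, ?_, ?_⟩, ⟨?_, ?_, ?_⟩, ⟨?_, ?_⟩, ?_⟩
    all_goals first
      | (apply K.v_ne; omega)
      | (apply K.wv_ne; omega)
      | (apply Ne.symm; apply K.wv_ne; omega)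
      | (apply K.w_ne <;> omega)

/-- eight-cycle from four crossing chords -/
theorem K2.cross (K : K2 G) {a b c d : ℕ} (hab : a ≠ b) (hcd : c ≠ d) (hac : a ≠ c) (had : a ≠ d)
    (hbc : b ≠ c) (hbd : b ≠ d)
    (h1 : G.Adj (K.w (2 * a) (2 * a + 1)) (K.w (2 * c) (2 * a)))
    (h2 : G.Adj (K.w (2 * a) (2 * a + 1)) (K.w (2 * d) (2 * a)))
    (h3 : G.Adj (K.w (2 * b) (2 * b + 1)) (K.w (2 * c) (2 * b)))
    (h4 : G.Adj (K.w (2 * b) (2 * b + 1)) (K.w (2 * d) (2 * b))) : Cyc G 8 := by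
  have c1 := K.adj_vw (2 * c) (2 * a) (by omega)
  have c2 := K.adj_vw (2 * c) (2 * b) (by omega)
  have c3 := K.adj_vw (2 * d) (2 * a) (by omega)
  have c4 := K.adj_vw (2 * d) (2 * b) (by omega)
  have p1 : Pth G (K.w (2 * a) (2 * a + 1)) (K.w (2 * b) (2 * b + 1))
      [K.w (2 * c) (2 * a), K.v (2 * c), K.w (2 * c) (2 * b)] := by
    refine ⟨by simp [h1, h3.symm, c1.symm, c2], ?_⟩
    simp only [List.cons_append, List.nil_append, List.nodup_cons, List.mem_cons,
      List.not_mem_nil, not_or, or_false, not_false_eq_true, and_true, List.nodup_nil]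
    refine ⟨⟨?_, ?_, ?_, ?_⟩, ⟨?_, ?_, ?_⟩, ⟨?_, ?_⟩, ?_⟩
    all_goals first
      | (apply K.v_ne; omega)
      | (apply K.wv_ne; omega)
      | (apply Ne.symm; apply K.wv_ne; omega)
      | (apply K.w_ne <;> omega)
  have p2 : Pth G (K.w (2 * b) (2 * b + 1)) (K.w (2 * a) (2 * a + 1))
      [K.w (2 * d) (2 * b), K.v (2 * d), K.w (2 * d) (2 * a)] := by
    refine ⟨by simp [h4, h2.symm, c4.symm, c3], ?_⟩
    simp only [List.cons_append, List.nil_append, List.nodup_cons, List.mem_cons,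
      List.not_mem_nil, not_or, or_false, not_false_eq_true, and_true, List.nodup_nil]
    refine ⟨⟨?_, ?_, ?_, ?_⟩, ⟨?_, ?_, ?_⟩, ⟨?_, ?_⟩, ?_⟩
    all_goals first
      | (apply K.v_ne; omega)
      | (apply K.wv_ne; omega)
      | (apply Ne.symm; apply K.wv_ne; omega)
      | (apply K.w_ne <;> omega)
  refine cyc_of_pth p1 p2 ?_
  intro x hx
  simp only [List.mem_cons, List.not_mem_nil, not_or, or_false] at hx ⊢
  rcases hx with rfl | rfl | rfl
  all_goals
    refine ⟨?_, ?_, ?_⟩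
    all_goals first
      | (apply K.v_ne; omega)
      | (apply K.wv_ne; omega)
      | (apply Ne.symm; apply K.wv_ne; omega)
      | (apply K.w_ne <;> omega)

/-- The main pair lemma. -/
theorem K2.pair (K : K2 G) {I J : ℕ} (hIJ : I ≠ J) {p q : V}
    (a1 : G.Adj (K.w (2 * I) (2 * I + 1)) p) (a2 : G.Adj p q)
    (a3 : G.Adj q (K.w (2 * J) (2 * J + 1)))
    (n1 : p ≠ K.w (2 * J) (2 * J + 1)) (n2 : q ≠ K.w (2 * I) (2 * I + 1))
    (n3 : p ≠ K.v (2 * I)) (n4 : p ≠ K.v (2 * I + 1)) (n5 : p ≠ K.w (2 * I + 1) (2 * I))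
    (n6 : p ≠ K.v (2 * J)) (n7 : p ≠ K.v (2 * J + 1)) (n8 : p ≠ K.w (2 * J + 1) (2 * J))
    (m3 : q ≠ K.v (2 * I)) (m4 : q ≠ K.v (2 * I + 1)) (m5 : q ≠ K.w (2 * I + 1) (2 * I))
    (m6 : q ≠ K.v (2 * J)) (m7 : q ≠ K.v (2 * J + 1)) (m8 : q ≠ K.w (2 * J + 1) (2 * J))
    {r : ℕ} (d1 : ¬ G.Adj (K.w (2 * I) (2 * I + 1)) (K.w (2 * J) (2 * I)) ∨ r ≠ 4)
    (d2 : ¬ G.Adj (K.w (2 * J) (2 * J + 1)) (K.w (2 * I) (2 * J)) ∨ r ≠ 4)
    (hr : 4 ≤ r) : Cyc G (2 * r) := by
  have b1 := K.adj_vw (2 * I) (2 * I + 1) (by omega)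
  have b2 := K.adj_vw (2 * J) (2 * J + 1) (by omega)
  have b3 := K.adj_vw (2 * I + 1) (2 * I) (by omega)
  have b4 := K.adj_vw (2 * J + 1) (2 * J) (by omega)
  have b5 := K.adj_ww (2 * I + 1) (2 * I) (by omega)
  have b6 := K.adj_ww (2 * J) (2 * J + 1) (by omega)
  have hmod : r % 3 = 0 ∨ r % 3 = 1 ∨ r % 3 = 2 := by omega
  rcases hmod with h3 | h3 | h3
  · have := K.cyc3 (k := 2 * (r / 3)) (by omega)
    have e : 3 * (2 * (r / 3)) = 2 * r := by omega
    rwa [e] at this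
  · have hpth : Pth G (K.v (2 * I)) (K.v (2 * J))
        [K.w (2 * I) (2 * I + 1), p, q, K.w (2 * J) (2 * J + 1)] := by
      refine ⟨by simp [b1, a1, a2, a3, b2.symm], ?_⟩
      simp only [List.cons_append, List.nil_append, List.nodup_cons, List.mem_cons,
        List.not_mem_nil, not_or, or_false, not_false_eq_true, and_true, List.nodup_nil]
      refine ⟨⟨?_, ?_, ?_, ?_, ?_⟩, ⟨a1.ne, ?_, ?_, ?_⟩, ⟨a2.ne, ?_, ?_⟩, ⟨a3.ne, ?_⟩, ?_⟩
      all_goals first
        | assumption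
        | (apply Ne.symm; assumption)
        | (apply K.v_ne; omega)
        | (apply K.wv_ne; omega)
        | (apply Ne.symm; apply K.wv_ne; omega)
        | (apply K.w_ne <;> omega)
    by_cases h4 : r = 4
    swap
    · exact K.cyc_of5 (by omega) hpth rfl (by omega) h3
    replace d1 := d1.resolve_right (by simpa using h4)
    replace d2 := d2.resolve_right (by simpa using h4)
    by_cases e1 : p = K.w (2 * I) (2 * J)
    · rw [e1] at a1
      exact K.chord1 (by omega) (by omega) (by omega) a1 hr h3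
    by_cases e2 : p = K.w (2 * J) (2 * I)
    · rw [e2] at a1
      exact absurd a1 d1
    by_cases e3 : q = K.w (2 * I) (2 * J)
    · rw [e3] at a3
      exact absurd a3.symm d2
    by_cases e4 : q = K.w (2 * J) (2 * I)
    · rw [e4] at a3
      exact K.chord1 (by omega) (by omega) (by omega) a3.symm hr h3
    refine K.cyc_of5' (a := 2 * I) (b := 2 * J) (by omega) hpth rfl ?_ ?_ hr h3
    all_goals
      simp only [List.mem_cons, List.not_mem_nil, not_or, or_false]
      refine ⟨?_, ?_, ?_, ?_⟩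
      all_goals first
        | assumption
        | (apply Ne.symm; assumption)
        | (apply K.w_ne <;> omega)
  · by_cases e1 : p = K.w (2 * I + 1) (2 * J + 1)
    · rw [e1] at a1
      exact K.chord2 (by omega) (by omega) (by omega) a1 hr h3
    by_cases e2 : p = K.w (2 * J + 1) (2 * I + 1)
    · rw [e2] at a1
      exact K.chord3 (by omega) (by omega) (by omega) a1 hr h3
    by_cases e3 : q = K.w (2 * I + 1) (2 * J + 1)
    · rw [e3] at a3
      exact K.chord3 (by omega) (by omega) (by omega) a3.symm hr h3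
    by_cases e4 : q = K.w (2 * J + 1) (2 * I + 1)
    · rw [e4] at a3
      exact K.chord2 (by omega) (by omega) (by omega) a3.symm hr h3
    refine K.cyc_of7' (a := 2 * I + 1) (b := 2 * J + 1) (by omega)
      (m := [K.w (2 * I + 1) (2 * I), K.w (2 * I) (2 * I + 1), p, q, K.w (2 * J) (2 * J + 1),
        K.w (2 * J + 1) (2 * J)])
      ⟨?_, ?_⟩ rfl ?_ ?_ hr h3
    · simp [b3, b5, a1, a2, a3, b6, b4.symm]
    · simp only [List.cons_append, List.nil_append, List.nodup_cons, List.mem_cons,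
        List.not_mem_nil, not_or, or_false, not_false_eq_true, and_true, List.nodup_nil]
      refine ⟨⟨?_, ?_, ?_, ?_, ?_, ?_, ?_⟩, ⟨?_, ?_, ?_, ?_, ?_, ?_⟩, ⟨a1.ne, ?_, ?_, ?_, ?_⟩,
        ⟨a2.ne, ?_, ?_, ?_⟩, ⟨a3.ne, ?_, ?_⟩, ⟨?_, ?_⟩, ?_⟩
      all_goals first
        | assumption
        | (apply Ne.symm; assumption)
        | (apply K.v_ne; omega)
        | (apply K.wv_ne; omega)
        | (apply Ne.symm; apply K.wv_ne; omega)
        | (apply K.w_ne <;> omega)
    all_goals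
      simp only [List.mem_cons, List.not_mem_nil, not_or, or_false]
      refine ⟨?_, ?_, ?_, ?_, ?_, ?_⟩
      all_goals first
        | assumption
        | (apply Ne.symm; assumption)
        | (apply K.w_ne <;> omega)

theorem K2.generic2 (K : K2 G) (z : ℕ → V) : ∀ᶠ m in (hyperfilter ℕ : Filter ℕ),
    ∀ᶠ n in (hyperfilter ℕ : Filter ℕ), K.w m n ≠ z n ∧ K.w n m ≠ z n := by
  by_contra hcon
  rw [← Ultrafilter.eventually_not] at hcon
  have h1 : ∀ᶠ m in (hyperfilter ℕ : Filter ℕ),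
      (∀ᶠ n in (hyperfilter ℕ : Filter ℕ), K.w m n = z n) ∨
      (∀ᶠ n in (hyperfilter ℕ : Filter ℕ), K.w n m = z n) := by
    refine hcon.mono fun m hm => ?_
    rw [← Ultrafilter.eventually_not] at hm
    rw [← Ultrafilter.eventually_or]
    refine hm.mono fun n hn => ?_
    tauto
  rcases Ultrafilter.eventually_or.1 h1 with h | h
  · obtain ⟨m, hm⟩ := h.exists
    obtain ⟨m', hm', hne⟩ := (h.and (hyper_ne m)).exists
    obtain ⟨n, hn, hn', hn1, hn2⟩ := (hm.and (hm'.and ((hyper_ne m).and (hyper_ne m')))).exists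
    have := K.inj_w m n m' n (Ne.symm hn1) (Ne.symm hn2) (hn.trans hn'.symm)
    exact hne this.1.symm
  · obtain ⟨m, hm⟩ := h.exists
    obtain ⟨m', hm', hne⟩ := (h.and (hyper_ne m)).exists
    obtain ⟨n, hn, hn', hn1, hn2⟩ := (hm.and (hm'.and ((hyper_ne m).and (hyper_ne m')))).exists
    have := K.inj_w n m n m' hn1 hn2 (hn.trans hn'.symm)
    exact hne this.2.symm

theorem K2.generic1 (K : K2 G) (z : V) (m : ℕ) :
    ∀ᶠ n in (hyperfilter ℕ : Filter ℕ), K.w m n ≠ z ∧ K.w n m ≠ z := by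
  classical
  refine Filter.Eventually.filter_mono hyperfilter_le_cofinite ?_
  refine (K.generic {z} m).mono fun n hn => ?_
  simpa using hn.2.2

/-- A two-subdivided infinite complete graph in a graph of diameter at most three forces all even
cycles of length at least eight. -/
theorem K2.final (K : K2 G) (hD : Diam3 G) {r : ℕ} (hr : 4 ≤ r) : Cyc G (2 * r) := by
  classical
  by_contra hC
  let u : ℕ → V := fun I => K.w (2 * I) (2 * I + 1)
  have uinj : ∀ i j, u i = u j → i = j := fun i j h => by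
    have := K.inj_w _ _ _ _ (by omega) (by omega) h; omega
  let U : Ultrafilter V := (hyperfilter ℕ).map u
  have hU : NP U := by
    intro x
    rw [Ultrafilter.coe_map, Filter.eventually_map]
    exact hyper_ne_of_inj uinj x
  have hT : Thin G U := by
    intro h
    rw [Ultrafilter.eventually_not]
    intro hh
    rw [Ultrafilter.coe_map, Filter.eventually_map] at hh
    exact hC (K.hub hh hr)
  obtain ⟨hP, hF⟩ := case_analysis hU hT hD hr hC
  have hS : ∀ᶠ v in (U : Filter V), ∃ I, v = u I := by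
    rw [Ultrafilter.coe_map, Filter.eventually_map]
    exact Filter.Eventually.of_forall fun I => ⟨I, rfl⟩
  obtain ⟨K', hK'⟩ := exists_K2 hU hT hD hP hF _ hS
  choose s hs using hK'
  have sinj : ∀ m n, s m = s n → m = n := by
    intro m n h
    apply K'.inj_v
    rw [hs, hs, h]
  -- no crossing chords
  have hX1 : ∀ᶠ m in (hyperfilter ℕ : Filter ℕ), ∀ᶠ n in (hyperfilter ℕ : Filter ℕ),
      ¬ G.Adj (K.w (2 * s m) (2 * s m + 1)) (K.w (2 * s n) (2 * s m)) ∨ r ≠ 4 := by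
    by_cases h4 : r = 4
    swap
    · exact Filter.Eventually.of_forall fun m => Filter.Eventually.of_forall fun n => Or.inr h4
    by_contra hcon
    rw [← Ultrafilter.eventually_not] at hcon
    have h1 : ∀ᶠ m in (hyperfilter ℕ : Filter ℕ), ∀ᶠ n in (hyperfilter ℕ : Filter ℕ),
        G.Adj (K.w (2 * s m) (2 * s m + 1)) (K.w (2 * s n) (2 * s m)) := by
      refine hcon.mono fun m hm => ?_
      rw [← Ultrafilter.eventually_not] at hm
      refine hm.mono fun n hn => ?_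
      tauto
    obtain ⟨m, hm⟩ := h1.exists
    obtain ⟨m', hm', hne⟩ := (h1.and (hyper_ne m)).exists
    obtain ⟨n, ⟨hn, hn'⟩, hn1, hn2⟩ := ((hm.and hm').and ((hyper_ne m).and (hyper_ne m'))).exists
    obtain ⟨n', ⟨hk, hk'⟩, hk1, hk2, hk3⟩ := ((hm.and hm').and ((hyper_ne m).and
      ((hyper_ne m').and (hyper_ne n)))).exists
    apply hC
    rw [h4]
    exact K.cross (a := s m) (b := s m') (c := s n) (d := s n')
      (fun h => hne (sinj _ _ h).symm) (fun h => hk3 (sinj _ _ h).symm)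
      (fun h => hn1 (sinj _ _ h).symm) (fun h => hk1 (sinj _ _ h).symm)
      (fun h => hn2 (sinj _ _ h).symm) (fun h => hk2 (sinj _ _ h).symm) hn hk hn' hk'
  have hX2 : ∀ᶠ m in (hyperfilter ℕ : Filter ℕ), ∀ᶠ n in (hyperfilter ℕ : Filter ℕ),
      ¬ G.Adj (K.w (2 * s n) (2 * s n + 1)) (K.w (2 * s m) (2 * s n)) ∨ r ≠ 4 := by
    by_cases h4 : r = 4
    swap
    · exact Filter.Eventually.of_forall fun m => Filter.Eventually.of_forall fun n => Or.inr h4
    by_contra hcon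
    rw [← Ultrafilter.eventually_not] at hcon
    have h1 : ∀ᶠ m in (hyperfilter ℕ : Filter ℕ), ∀ᶠ n in (hyperfilter ℕ : Filter ℕ),
        G.Adj (K.w (2 * s n) (2 * s n + 1)) (K.w (2 * s m) (2 * s n)) := by
      refine hcon.mono fun m hm => ?_
      rw [← Ultrafilter.eventually_not] at hm
      refine hm.mono fun n hn => ?_
      tauto
    obtain ⟨m, hm⟩ := h1.exists
    obtain ⟨m', hm', hne⟩ := (h1.and (hyper_ne m)).exists
    obtain ⟨n, ⟨hn, hn'⟩, hn1, hn2⟩ := ((hm.and hm').and ((hyper_ne m).and (hyper_ne m'))).exists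
    obtain ⟨n', ⟨hk, hk'⟩, hk1, hk2, hk3⟩ := ((hm.and hm').and ((hyper_ne m).and
      ((hyper_ne m').and (hyper_ne n)))).exists
    apply hC
    rw [h4]
    exact K.cross (a := s n) (b := s n') (c := s m) (d := s m')
      (fun h => hk3 (sinj _ _ h).symm) (fun h => hne (sinj _ _ h).symm)
      (fun h => hn1 (sinj _ _ h)) (fun h => hn2 (sinj _ _ h))
      (fun h => hk1 (sinj _ _ h)) (fun h => hk2 (sinj _ _ h)) hn hn' hk hk'
  have hg := (K'.generic2 (fun n => K.v (2 * s n))).and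
    ((K'.generic2 (fun n => K.v (2 * s n + 1))).and
      (K'.generic2 (fun n => K.w (2 * s n + 1) (2 * s n))))
  obtain ⟨m, x1, x2, g1, g2, g3⟩ := (hX1.and (hX2.and hg)).exists
  obtain ⟨n, y1, y2, y3, y4, y5, y6, y7, y8, y9⟩ := (x1.and (x2.and (g1.and (g2.and (g3.and
    ((K'.generic1 (K.v (2 * s m)) m).and ((K'.generic1 (K.v (2 * s m + 1)) m).and
      ((K'.generic1 (K.w (2 * s m + 1) (2 * s m)) m).and (hyper_ne m))))))))).exists
  have hmn : m ≠ n := Ne.symm y9
  have hsmn : s m ≠ s n := fun h => hmn (sinj _ _ h)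
  have a1 := K'.adj_vw m n hmn
  have a2 := K'.adj_ww m n hmn
  have a3 := (K'.adj_vw n m y9).symm
  have n1 : K'.w m n ≠ K'.v n := K'.wv_ne hmn
  have n2 : K'.w n m ≠ K'.v m := K'.wv_ne y9
  rw [hs m] at a1 n2
  rw [hs n] at a3 n1
  exact hC (K.pair hsmn a1 a2 a3 n1 n2 y6.1 y7.1 y8.1 y3.1 y4.1 y5.1 y6.2 y7.2 y8.2 y3.2
    y4.2 y5.2 y1 y2 hr)

end Pool.Agent.H56.Td
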