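import Pool.Agent.H56.Td.Level2

/-!
A graph of diameter at most three with a ray has all even cycles of length at least eight.
-/

set_option autoImplicit false

namespace Pool.Agent.H56.Td

open Filter

variable {V : Type*} {G : SimpleGraph V}

theorem exists_hub {U : Ultrafilter V} (hU : NP U) (hD : Diam3 G) {r : ℕ} (hr : 4 ≤ r)
    (hC : ¬ Cyc G (2 * r)) : ∃ h, ∀ᶠ v in (U : Filter V), G.Adj h v := by
  by_contra hcon
  have hT : Thin G U := fun x => by
    rw [Ultrafilter.eventually_not]
    exact fun h => hcon ⟨x, h⟩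
  obtain ⟨hP, hF⟩ := case_analysis hU hT hD hr hC
  obtain ⟨K, -⟩ := exists_K2 hU hT hD hP hF (fun _ => True) (Filter.Eventually.of_forall fun _ => trivial)
  exact hC (K.final hD hr)

/-- the segment `p n, ..., p (n+k)` -/
def seg (p : ℕ → V) : ℕ → ℕ → List V
  | 0, n => [p n]
  | k + 1, n => p n :: seg p k (n + 1)

theorem length_seg (p : ℕ → V) (k n : ℕ) : (seg p k n).length = k + 1 := by
  induction k generalizing n with
  | zero => rfl
  | succ k ih => simp [seg, ih]

theorem mem_seg (p : ℕ → V) (k n : ℕ) (x : V) : x ∈ seg p k n ↔ ∃ i ≤ k, x = p (n + i) := by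
  induction k generalizing n with
  | zero => simp [seg]
  | succ k ih =>
    simp only [seg, List.mem_cons, ih]
    constructor
    · rintro (rfl | ⟨i, hi, rfl⟩)
      · exact ⟨0, by omega, rfl⟩
      · exact ⟨i + 1, by omega, by congr 1; omega⟩
    · rintro ⟨i, hi, rfl⟩
      rcases Nat.eq_zero_or_pos i with rfl | h
      · left; rfl
      · right; exact ⟨i - 1, by omega, by congr 1; omega⟩

theorem nodup_seg {p : ℕ → V} (hp : Function.Injective p) (k n : ℕ) : (seg p k n).Nodup := by
  induction k generalizing n with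
  | zero => simp [seg]
  | succ k ih =>
    simp only [seg, List.nodup_cons, mem_seg, not_exists, not_and]
    refine ⟨?_, ih _⟩
    intro i _ h
    have := hp h
    omega

theorem chain_seg {p : ℕ → V} (ha : ∀ n, G.Adj (p n) (p (n + 1))) (k n : ℕ) (x z : V)
    (hx : G.Adj x (p n)) (hz : G.Adj (p (n + k)) z) :
    (x :: (seg p k n ++ [z])).IsChain G.Adj := by
  induction k generalizing n x with
  | zero => simpa [seg] using ⟨hx, hz⟩
  | succ k ih =>
    simp only [seg, List.cons_append, List.isChain_cons_cons]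
    refine ⟨hx, ih (n + 1) (p n) (ha n) ?_⟩
    have e : n + 1 + k = n + (k + 1) := by omega
    rwa [e]

theorem hyper_seg {p : ℕ → V} (hp : Function.Injective p) (X : Finset V) (a : ℕ) :
    ∀ᶠ n in (hyperfilter ℕ : Filter ℕ), p (n + a) ∉ X := by
  refine Filter.Eventually.filter_mono hyperfilter_le_cofinite ?_
  have := eventually_of_injOn (f := fun n => p (n + a)) (s := Set.univ)
    (fun i _ j _ h => by have := hp h; omega) X
  exact this.mono fun n hn => hn trivial

theorem flex_hub {p : ℕ → V} (hp : Function.Injective p) (ha : ∀ n, G.Adj (p n) (p (n + 1)))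
    {H H' : V} (hne : H ≠ H') {a k : ℕ}
    (h1 : ∀ᶠ n in (hyperfilter ℕ : Filter ℕ), G.Adj H (p (n + a)))
    (h2 : ∀ᶠ n in (hyperfilter ℕ : Filter ℕ), G.Adj H' (p (n + (a + k)))) :
    Flex G (k + 2) H H' := by
  classical
  intro X
  have h3 : ∀ᶠ n in (hyperfilter ℕ : Filter ℕ), ∀ i ∈ Finset.range (k + 1),
      p (n + (a + i)) ∉ insert H (insert H' X) :=
    (Filter.eventually_all_finset _).2 fun i _ => hyper_seg hp _ _
  obtain ⟨n, n1, n2, n3⟩ := (h1.and (h2.and h3)).exists
  have hmem : ∀ x ∈ seg p k (n + a), x ∉ insert H (insert H' X) := by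
    intro x hx
    obtain ⟨i, hi, rfl⟩ := (mem_seg p k _ x).1 hx
    have := n3 i (Finset.mem_range.2 (by omega))
    rwa [← add_assoc] at this
  refine ⟨seg p k (n + a), by rw [length_seg], ⟨?_, ?_⟩, ?_⟩
  · apply chain_seg ha k _ _ _ n1
    rw [add_assoc]
    exact n2.symm
  · simp only [List.nodup_cons, List.mem_append, List.mem_singleton, not_or, List.nodup_append]
    refine ⟨⟨fun h => ?_, hne⟩, nodup_seg hp _ _, by simp, ?_⟩
    · have := hmem _ h
      simp at this
    · intro x hx y hy
      subst hy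
      have := hmem _ hx
      simp only [Finset.mem_insert, not_or] at this
      exact this.2.1
  · intro x hx
    have := hmem _ hx
    simp only [Finset.mem_insert, not_or] at this
    exact this.2.2

theorem cyc_hub {p : ℕ → V} (hp : Function.Injective p) (ha : ∀ n, G.Adj (p n) (p (n + 1)))
    {H : V} {a k : ℕ}
    (h1 : ∀ᶠ n in (hyperfilter ℕ : Filter ℕ), G.Adj H (p (n + a)))
    (h2 : ∀ᶠ n in (hyperfilter ℕ : Filter ℕ), G.Adj H (p (n + (a + k)))) :
    Cyc G (k + 2) := by
  classical
  have h3 : ∀ᶠ n in (hyperfilter ℕ : Filter ℕ), ∀ i ∈ Finset.range (k + 1),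
      p (n + (a + i)) ∉ ({H} : Finset V) :=
    (Filter.eventually_all_finset _).2 fun i _ => hyper_seg hp _ _
  obtain ⟨n, n1, n2, n3⟩ := (h1.and (h2.and h3)).exists
  refine ⟨H, seg p k (n + a), by simp [length_seg], ?_, ?_⟩
  · apply chain_seg ha k _ _ _ n1
    rw [add_assoc]
    exact n2.symm
  · simp only [List.nodup_cons]
    refine ⟨fun h => ?_, nodup_seg hp _ _⟩
    obtain ⟨i, hi, hH⟩ := (mem_seg p k _ H).1 h
    have := n3 i (Finset.mem_range.2 (by omega))
    rw [← add_assoc, ← hH] at this
    simp at this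

theorem cyc_of_flex_flex {u v : V} {l l' : ℕ} (h : Flex G l u v) (h' : Flex G l' v u) :
    Cyc G (l + l') := by
  obtain ⟨m, h1, h2, -⟩ := h ∅
  rw [← h1]
  exact cyc_of_flex h2 h'

/-- Main theorem for infinite graphs. -/
theorem cyc_of_ray (hD : Diam3 G) {r : ℕ} (hr : 4 ≤ r) {p : ℕ → V} (hp : Function.Injective p)
    (ha : ∀ n, G.Adj (p n) (p (n + 1))) : Cyc G (2 * r) := by
  by_contra hC
  have hex : ∀ a : ℕ, ∃ h, ∀ᶠ n in (hyperfilter ℕ : Filter ℕ), G.Adj h (p (n + a)) := by
    intro a
    have hU : NP ((hyperfilter ℕ).map (fun n => p (n + a))) := by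
      intro x
      rw [Ultrafilter.coe_map, Filter.eventually_map]
      exact hyper_ne_of_inj (fun i j h => by have := hp h; omega) x
    obtain ⟨h, hh⟩ := exists_hub hU hD hr hC
    rw [Ultrafilter.coe_map, Filter.eventually_map] at hh
    exact ⟨h, hh⟩
  choose H hH using hex
  have step : ∀ a, H a = H (a + (r - 2)) := by
    intro a
    by_contra hne
    have f := flex_hub hp ha hne (hH a) (hH (a + (r - 2)))
    have := cyc_of_flex_flex f f.symm
    apply hC
    have e : r - 2 + 2 + (r - 2 + 2) = 2 * r := by omega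
    rwa [e] at this
  have far : H 0 ≠ H (0 + (2 * r - 2)) := by
    intro h
    have h2 := hH (0 + (2 * r - 2))
    rw [← h] at h2
    have := cyc_hub hp ha (hH 0) h2
    apply hC
    have e : 2 * r - 2 + 2 = 2 * r := by omega
    rwa [e] at this
  -- H 0 = H (r-2), H 2 = H r = H (2r-2)
  have e1 : H 0 = H (r - 2) := by simpa using step 0
  have e2 : H 2 = H r := by
    have := step 2
    have e : 2 + (r - 2) = r := by omega
    rwa [e] at this
  have e3 : H r = H (2 * r - 2) := by
    have := step r
    have e : r + (r - 2) = 2 * r - 2 := by omega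
    rwa [e] at this
  have hne : H 0 ≠ H 2 := by
    rw [e2, e3]
    simpa using far
  have f1 : Flex G (r + 2) (H 0) (H 2) := by
    have h2 := hH r
    rw [← e2] at h2
    exact flex_hub hp ha hne (hH 0) (by simpa using h2)
  have f2 : Flex G (r - 4 + 2) (H 2) (H 0) := by
    have h2 := hH (r - 2)
    rw [← e1] at h2
    have e : 2 + (r - 4) = r - 2 := by omega
    exact flex_hub hp ha hne.symm (hH 2) (by rw [e]; exact h2)
  apply hC
  have := cyc_of_flex_flex f1 f2
  have e : r + 2 + (r - 4 + 2) = 2 * r := by omega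
  rwa [e] at this

end Pool.Agent.H56.Td
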