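import Pool.Agent.H56.Td.Cases

/-!
Two-subdivisions of the infinite complete graph.
-/

set_option autoImplicit false

namespace Pool.Agent.H56.Td

open Filter

variable {V : Type*} (G : SimpleGraph V)

/-- A copy of the two-subdivision of the complete graph on countably many branch vertices
`v 0, v 1, ...`; the vertex `w i j` is the subdivision vertex next to `v i` on the path to `v j`. -/
structure K2 where
  v : ℕ → V
  w : ℕ → ℕ → V
  adj_vw : ∀ i j, i ≠ j → G.Adj (v i) (w i j)
  adj_ww : ∀ i j, i ≠ j → G.Adj (w i j) (w j i)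
  inj_v : ∀ i j, v i = v j → i = j
  inj_w : ∀ i j k l, i ≠ j → k ≠ l → w i j = w k l → i = k ∧ j = l
  ne_vw : ∀ i j k, i ≠ j → v k ≠ w i j

variable {G}

/-- Building sequences whose terms are good with respect to the set of previous terms. -/
theorem exists_seq_good [DecidableEq V] (Inv : Finset V → Prop) (Good : Finset V → V → Prop)
    (h0 : Inv ∅) (hs : ∀ s, Inv s → ∃ v, Good s v ∧ Inv (insert v s)) :
    ∃ f : ℕ → V, ∀ n, Good ((Finset.range n).image f) (f n) := by
  classical
  have : Nonempty V := by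
    obtain ⟨v, _⟩ := hs ∅ h0
    exact ⟨v⟩
  choose! g hg using hs
  let S : ℕ → Finset V := fun n => Nat.rec ∅ (fun _ s => insert (g s) s) n
  have hS0 : S 0 = ∅ := rfl
  have hS1 : ∀ n, S (n+1) = insert (g (S n)) (S n) := fun n => rfl
  have hInv : ∀ n, Inv (S n) := by
    intro n
    induction n with
    | zero => exact h0
    | succ n ih => rw [hS1]; exact (hg _ ih).2
  have hSim : ∀ n, S n = (Finset.range n).image (fun k => g (S k)) := by
    intro n
    induction n with
    | zero => simp [hS0]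
    | succ n ih => rw [hS1, Finset.range_add_one, Finset.image_insert, ← ih]
  refine ⟨fun k => g (S k), fun n => ?_⟩
  rw [← hSim]
  exact (hg _ (hInv n)).1

/-- Construction of a two-subdivision from the output of the case analysis. -/
theorem exists_K2 {U : Ultrafilter V} (hU : NP U) (hT : Thin G U) (hD : Diam3 G)
    (hP : ∀ᶠ u in (U : Filter V), Poor G U u)
    (hF : ∀ᶠ u in (U : Filter V), ∀ᶠ v in (U : Filter V), ¬ Flex G 2 u v ∧ ¬ Flex G 4 u v)
    (S : V → Prop) (hS : ∀ᶠ v in (U : Filter V), S v) :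
    ∃ K : K2 G, ∀ n, S (K.v n) := by
  classical
  have hch : ∃ x y : V → V → V, ∀ u v, (∃ a b, G.Adj u a ∧ G.Adj a b ∧ G.Adj b v) →
      G.Adj u (x u v) ∧ G.Adj (x u v) (y u v) ∧ G.Adj (y u v) v := by
    choose! x y h using fun (u v : V) (h : ∃ a b, G.Adj u a ∧ G.Adj a b ∧ G.Adj b v) => h
    exact ⟨x, y, h⟩
  obtain ⟨x, y, hxy⟩ := hch
  let C : Finset V → Finset V := fun s =>
    s ∪ ((s ×ˢ s).image (fun p => x p.1 p.2) ∪ (s ×ˢ s).image (fun p => y p.1 p.2))
  have hsC : ∀ s, s ⊆ C s := fun s => Finset.subset_union_left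
  have hxC : ∀ s, ∀ a ∈ s, ∀ b ∈ s, x a b ∈ C s := by
    intro s a ha b hb
    simp only [C, Finset.mem_union, Finset.mem_image, Finset.mem_product]
    exact Or.inr (Or.inl ⟨(a, b), ⟨ha, hb⟩, rfl⟩)
  have hyC : ∀ s, ∀ a ∈ s, ∀ b ∈ s, y a b ∈ C s := by
    intro s a ha b hb
    simp only [C, Finset.mem_union, Finset.mem_image, Finset.mem_product]
    exact Or.inr (Or.inr ⟨(a, b), ⟨ha, hb⟩, rfl⟩)
  let Good : Finset V → V → Prop := fun s v =>
    S v ∧ v ∉ C s ∧ (∀ u ∈ s, G.Adj u (x u v) ∧ G.Adj (x u v) (y u v) ∧ G.Adj (y u v) v ∧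
      x u v ≠ v ∧ y u v ≠ u ∧ x u v ∉ C s ∧ y u v ∉ C s) ∧
      (∀ u ∈ s, ∀ u' ∈ s, u ≠ u' → x u v ≠ x u' v ∧ y u v ≠ y u' v ∧ x u v ≠ y u' v)
  let Inv : Finset V → Prop := fun s =>
    (∀ u ∈ s, Poor G U u ∧ ∀ᶠ v in (U : Filter V), ¬ Flex G 2 u v ∧ ¬ Flex G 4 u v) ∧
    (∀ u ∈ s, ∀ u' ∈ s, u ≠ u' → ¬ Flex G 2 u u' ∧ ¬ Flex G 4 u u')
  obtain ⟨f, hf⟩ : ∃ f : ℕ → V, ∀ n, Good ((Finset.range n).image f) (f n) := by
    apply exists_seq_good Inv Good
    · exact ⟨by simp, by simp⟩
    · intro s hs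
      obtain ⟨hs1, hs2⟩ := hs
      have e1 : ∀ᶠ v in (U : Filter V), ∀ u ∈ s, ((v ∉ C s ∧ v ≠ u ∧ ¬ G.Adj u v) ∧
          (∀ z ∈ C s, ¬ G.Adj z v) ∧
          (¬ ∃ y, G.Adj u y ∧ G.Adj y v) ∧
          (∃ x y, G.Adj u x ∧ G.Adj x y ∧ G.Adj y v) ∧
          (∀ x y, G.Adj u x → G.Adj x y → G.Adj y v → x ∉ C s ∧ y ∉ C s)) :=
        (Filter.eventually_all_finset s).2 (fun u hu => poor_path hU hT hD (hs1 u hu).1 (C s))
      have e2 : ∀ᶠ v in (U : Filter V), ∀ u ∈ s, ∀ u' ∈ s, u ≠ u' →
          ∀ x y x' y', G.Adj u x → G.Adj x y → G.Adj y v →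
          G.Adj u' x' → G.Adj x' y' → G.Adj y' v → x ≠ x' ∧ y ≠ y' ∧ x ≠ y' ∧ y ≠ x' := by
        refine (Filter.eventually_all_finset s).2 (fun u hu =>
          (Filter.eventually_all_finset s).2 (fun u' hu' => ?_))
        by_cases hne : u = u'
        · exact Filter.Eventually.of_forall (fun v h => absurd hne h)
        · refine (poor_disjoint hU hT hD hne (hs1 u hu).1 (hs1 u' hu').1
            (hs2 u hu u' hu' hne).1 (hs2 u hu u' hu' hne).2).mono ?_
          exact fun v hv _ => hv
      have e3 : ∀ᶠ v in (U : Filter V), ∀ u ∈ s, ¬ Flex G 2 u v ∧ ¬ Flex G 4 u v :=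
        (Filter.eventually_all_finset s).2 (fun u hu => (hs1 u hu).2)
      obtain ⟨v, v1, v2, v3, v4, v5, v6, v7⟩ :=
        (e1.and (e2.and (e3.and (hP.and (hF.and (hS.and (hU.notMem (C s)))))))).exists
      refine ⟨v, ⟨v6, v7, ?_, ?_⟩, ?_, ?_⟩
      · intro u hu
        obtain ⟨⟨p1, p2, p3⟩, p4, p5, p6, p7⟩ := v1 u hu
        obtain ⟨q1, q2, q3⟩ := hxy u v p6
        have c := p7 _ _ q1 q2 q3
        refine ⟨q1, q2, q3, ?_, ?_, c.1, c.2⟩
        · intro h
          rw [h] at q1
          exact p3 q1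
        · intro h
          rw [h] at q3
          exact p3 q3
      · intro u hu u' hu' hne
        obtain ⟨q1, q2, q3⟩ := hxy u v (v1 u hu).2.2.2.1
        obtain ⟨r1, r2, r3⟩ := hxy u' v (v1 u' hu').2.2.2.1
        have := v2 u hu u' hu' hne _ _ _ _ q1 q2 q3 r1 r2 r3
        exact ⟨this.1, this.2.1, this.2.2.1⟩
      · intro u hu
        rw [Finset.mem_insert] at hu
        rcases hu with rfl | hu
        · exact ⟨v4, v5⟩
        · exact hs1 u hu
      · intro u hu u' hu' hne
        rw [Finset.mem_insert] at hu hu'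
        rcases hu with rfl | hu
        · rcases hu' with rfl | hu'
          · exact absurd rfl hne
          · exact ⟨fun h => (v3 u' hu').1 h.symm, fun h => (v3 u' hu').2 h.symm⟩
        · rcases hu' with rfl | hu'
          · exact v3 u hu
          · exact hs2 u hu u' hu' hne
  have hmem : ∀ {i n : ℕ}, i < n → f i ∈ (Finset.range n).image f := by
    intro i n h
    exact Finset.mem_image_of_mem f (Finset.mem_range.2 h)
  have g1 : ∀ n, S (f n) := fun n => (hf n).1
  have g2 : ∀ n, f n ∉ C ((Finset.range n).image f) := fun n => (hf n).2.1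
  have g3 := fun n => (hf n).2.2.1
  have g4 := fun n => (hf n).2.2.2
  have finj : ∀ i j, i < j → f i ≠ f j := by
    intro i j hij h
    apply g2 j
    rw [← h]
    exact hsC _ (hmem hij)
  have finj' : ∀ i j, f i = f j → i = j := by
    intro i j h
    rcases lt_trichotomy i j with h' | h' | h'
    · exact absurd h (finj i j h')
    · exact h'
    · exact absurd h.symm (finj j i h')
  let w : ℕ → ℕ → V := fun i j => if i < j then x (f i) (f j) else y (f j) (f i)
  have w1 : ∀ i j, i < j → w i j = x (f i) (f j) := fun i j h => by simp [w, h]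
  have w2 : ∀ i j, j < i → w i j = y (f j) (f i) := fun i j h => by
    simp [w, not_lt.2 h.le]
  -- every w with both indices below n lies in C
  have wC : ∀ i j n, i ≠ j → i < n → j < n → w i j ∈ C ((Finset.range n).image f) := by
    intro i j n hij hi hj
    rcases lt_or_gt_of_ne hij with h | h
    · rw [w1 _ _ h]; exact hxC _ _ (hmem hi) _ (hmem hj)
    · rw [w2 _ _ h]; exact hyC _ _ (hmem hj) _ (hmem hi)
  -- every w whose larger index is n is outside C
  have wN1 : ∀ i n, i < n → w i n ∉ C ((Finset.range n).image f) := by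
    intro i n h
    rw [w1 _ _ h]
    exact (g3 n (f i) (hmem h)).2.2.2.2.2.1
  have wN2 : ∀ i n, i < n → w n i ∉ C ((Finset.range n).image f) := by
    intro i n h
    rw [w2 _ _ h]
    exact (g3 n (f i) (hmem h)).2.2.2.2.2.2
  have wN : ∀ i j, i ≠ j → w i j ∉ C ((Finset.range (max i j)).image f) := by
    intro i j hij
    rcases lt_or_gt_of_ne hij with h | h
    · rw [max_eq_right h.le]; exact wN1 _ _ h
    · rw [max_eq_left h.le]; exact wN2 _ _ h
  -- same larger index
  have same : ∀ i j n, i < n → j < n → (w i n = w j n → i = j) ∧ (w n i = w n j → i = j) ∧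
      w i n ≠ w n j := by
    intro i j n hi hj
    rw [w1 _ _ hi, w1 _ _ hj, w2 _ _ hi, w2 _ _ hj]
    by_cases hij : i = j
    · subst hij
      refine ⟨fun _ => rfl, fun _ => rfl, ?_⟩
      exact (g3 n (f i) (hmem hi)).2.1.ne
    · have hfne : f i ≠ f j := fun h => hij (finj' i j h)
      have := g4 n (f i) (hmem hi) (f j) (hmem hj) hfne
      exact ⟨fun h => absurd h this.1, fun h => absurd h this.2.1, this.2.2⟩
  refine ⟨{ v := f, w := w, adj_vw := ?_, adj_ww := ?_, inj_v := finj', inj_w := ?_,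
            ne_vw := ?_ }, g1⟩
  · intro i j hij
    rcases lt_or_gt_of_ne hij with h | h
    · rw [w1 _ _ h]
      exact (g3 j (f i) (hmem h)).1
    · rw [w2 _ _ h]
      exact (g3 i (f j) (hmem h)).2.2.1.symm
  · intro i j hij
    rcases lt_or_gt_of_ne hij with h | h
    · rw [w1 _ _ h, w2 _ _ h]
      exact (g3 j (f i) (hmem h)).2.1
    · rw [w1 _ _ h, w2 _ _ h]
      exact (g3 i (f j) (hmem h)).2.1.symm
  · intro i j k l hij hkl h
    rcases lt_trichotomy (max i j) (max k l) with hlt | heq | hgt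
    · exfalso
      apply wN k l hkl
      rw [← h]
      exact wC i j _ hij (by omega) (by omega)
    · rcases lt_or_gt_of_ne hij with h1 | h1 <;> rcases lt_or_gt_of_ne hkl with h2 | h2
      · have : j = l := by omega
        subst this
        exact ⟨(same i k j h1 h2).1 h, rfl⟩
      · have : j = k := by omega
        subst this
        exact absurd h (same i l j h1 h2).2.2
      · have : i = l := by omega
        subst this
        exact absurd h.symm (same k j i h2 h1).2.2
      · have : i = k := by omega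
        subst this
        exact ⟨rfl, (same j l i h1 h2).2.1 h⟩
    · exfalso
      apply wN i j hij
      rw [h]
      exact wC k l _ hkl (by omega) (by omega)
  · intro i j k hij h
    rcases lt_trichotomy k (max i j) with hlt | heq | hgt
    · apply wN i j hij
      rw [← h]
      exact hsC _ (hmem hlt)
    · rcases lt_or_gt_of_ne hij with h1 | h1
      · have : k = j := by omega
        subst this
        rw [w1 _ _ h1] at h
        exact (g3 k (f i) (hmem h1)).2.2.2.1 h.symm
      · have : k = i := by omega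
        subst this
        rw [w2 _ _ h1] at h
        exact (g3 k (f j) (hmem h1)).2.2.1.ne' h
    · apply g2 k
      rw [h]
      exact wC i j _ hij (by omega) (by omega)

end Pool.Agent.H56.Td
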