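import Pool.Agent.H56.Td.Sub

/-!
Cycles in graphs containing a two-subdivision of the infinite complete graph.
-/

set_option autoImplicit false

namespace Pool.Agent.H56.Td

open Filter

variable {V : Type*} {G : SimpleGraph V}

theorem K2.w_ne (K : K2 G) {i j k l : ℕ} (h1 : i ≠ j) (h2 : k ≠ l) (h : i ≠ k ∨ j ≠ l) :
    K.w i j ≠ K.w k l := by
  intro h'
  have := K.inj_w i j k l h1 h2 h'
  omega

theorem K2.v_ne (K : K2 G) {i j : ℕ} (h1 : i ≠ j) : K.v i ≠ K.v j :=
  fun h => h1 (K.inj_v i j h)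

theorem K2.wv_ne (K : K2 G) {i j k : ℕ} (h1 : i ≠ j) : K.w i j ≠ K.v k :=
  fun h => K.ne_vw i j k h1 h.symm

theorem eventually_of_injOn {f : ℕ → V} {s : Set ℕ} (hf : Set.InjOn f s) (X : Finset V) :
    ∀ᶠ c in (cofinite : Filter ℕ), c ∈ s → f c ∉ X := by
  have : {c | ¬ (c ∈ s → f c ∉ X)}.Finite := by
    apply Set.Finite.of_finite_image (f := f)
    · apply X.finite_toSet.subset
      rintro _ ⟨c, hc, rfl⟩
      simp only [Set.mem_ofPred_eq, Classical.not_imp, not_not] at hc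
      exact hc.2
    · intro c hc c' hc' h
      simp only [Set.mem_ofPred_eq, Classical.not_imp, not_not] at hc hc'
      exact hf hc.1 hc'.1 h
  exact this

theorem ne_eventually (a : ℕ) : ∀ᶠ c in (cofinite : Filter ℕ), c ≠ a :=
  (Set.finite_singleton a).compl_mem_cofinite

theorem K2.generic (K : K2 G) (X : Finset V) (a : ℕ) : ∀ᶠ c in (cofinite : Filter ℕ),
    c ≠ a ∧ K.v c ∉ X ∧ K.w a c ∉ X ∧ K.w c a ∉ X := by
  have h1 : ∀ᶠ c in (cofinite : Filter ℕ), c ∈ Set.univ → K.v c ∉ X :=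
    eventually_of_injOn (fun i _ j _ h => K.inj_v i j h) X
  have h2 : ∀ᶠ c in (cofinite : Filter ℕ), c ∈ {c | c ≠ a} → K.w a c ∉ X :=
    eventually_of_injOn (fun i hi j hj h => (K.inj_w a i a j (Ne.symm hi) (Ne.symm hj) h).2) X
  have h3 : ∀ᶠ c in (cofinite : Filter ℕ), c ∈ {c | c ≠ a} → K.w c a ∉ X :=
    eventually_of_injOn (fun i hi j hj h => (K.inj_w i a j a hi hj h).1) X
  filter_upwards [h1, h2, h3, ne_eventually a] with c c1 c2 c3 c4
  exact ⟨c4, c1 trivial, c2 c4, c3 c4⟩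

theorem K2.direct (K : K2 G) {a b : ℕ} (hab : a ≠ b) :
    Pth G (K.v a) (K.v b) [K.w a b, K.w b a] := by
  refine ⟨?_, ?_⟩
  · simp [K.adj_vw a b hab, K.adj_ww a b hab, (K.adj_vw b a hab.symm).symm]
  · simp [K.v_ne hab, (K.wv_ne hab), (K.wv_ne hab.symm), (K.wv_ne hab).symm,
      (K.wv_ne hab.symm).symm, K.w_ne hab hab.symm (Or.inl hab)]

theorem K2.flex (K : K2 G) {k : ℕ} (hk : 2 ≤ k) : ∀ {a b : ℕ}, a ≠ b →
    Flex G (3 * k) (K.v a) (K.v b) := by
  classical
  induction k, hk using Nat.le_induction with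
  | base =>
    intro a b hab X
    obtain ⟨c, ⟨c1, c2, c3, c4⟩, ⟨d1, -, d3, d4⟩⟩ := ((K.generic X a).and (K.generic X b)).exists
    refine ⟨[K.w a c, K.w c a] ++ K.v c :: [K.w c b, K.w b c], rfl,
      (K.direct (Ne.symm c1)).trans (K.direct d1) ?_ ?_ ?_ (K.v_ne hab), ?_⟩
    · intro x hx hx'
      simp only [List.mem_cons, List.not_mem_nil, or_false] at hx hx'
      rcases hx with rfl | rfl <;> rcases hx' with h | h
      · exact K.w_ne d1 (Ne.symm c1) (Or.inl c1) h
      · exact K.w_ne d1 c1 (Or.inr (Ne.symm hab)) h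
      · exact K.w_ne (Ne.symm d1) (Ne.symm c1) (Or.inl (Ne.symm hab)) h
      · exact K.w_ne (Ne.symm d1) c1 (Or.inl (Ne.symm d1)) h
    · simp [(K.wv_ne d1).symm, (K.wv_ne (Ne.symm d1)).symm]
    · simp [(K.wv_ne c1).symm, (K.wv_ne (Ne.symm c1)).symm]
    · intro x hx
      simp only [List.mem_append, List.mem_cons, List.not_mem_nil, or_false] at hx
      rcases hx with (rfl | rfl) | rfl | rfl | rfl <;> assumption
  | succ k hk ih =>
    intro a b hab X
    obtain ⟨c, ⟨c1, c2, c3, c4⟩, d1⟩ := ((K.generic X a).and (ne_eventually b)).exists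
    obtain ⟨m, hm1, hm2, hm3⟩ := ih (a := c) (b := b) d1 (insert (K.v a) (insert (K.w a c)
      (insert (K.w c a) X)))
    refine ⟨[K.w a c, K.w c a] ++ K.v c :: m, ?_,
      (K.direct (Ne.symm c1)).trans hm2 ?_ ?_ ?_ (K.v_ne hab), ?_⟩
    · simp; omega
    · intro x hx hx'
      have := hm3 x hx
      simp only [Finset.mem_insert, not_or] at this
      simp only [List.mem_cons, List.not_mem_nil, or_false] at hx'
      rcases hx' with h | h
      · exact this.2.1 h
      · exact this.2.2.1 h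
    · intro hx
      have := hm3 _ hx
      simp at this
    · simp [(K.wv_ne c1).symm, (K.wv_ne (Ne.symm c1)).symm]
    · intro x hx
      simp only [List.mem_append, List.mem_cons, List.not_mem_nil, or_false] at hx
      rcases hx with (rfl | rfl) | rfl | hx
      · exact c3
      · exact c4
      · exact c2
      · have := hm3 x hx
        simp only [Finset.mem_insert, not_or] at this
        exact this.2.2.2

theorem K2.cyc (K : K2 G) {a b : ℕ} (hab : a ≠ b) {m : List V} (h : Pth G (K.v a) (K.v b) m)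
    {k : ℕ} (hk : 2 ≤ k) : Cyc G (m.length + 1 + 3 * k) :=
  cyc_of_flex h (K.flex hk hab.symm)

theorem K2.cyc1 (K : K2 G) {a b : ℕ} (hab : a ≠ b) {m : List V} (h : Pth G (K.v a) (K.v b) m)
    (h1 : K.w a b ∉ m) (h2 : K.w b a ∉ m) : Cyc G (m.length + 1 + 3) := by
  have := cyc_of_pth h (K.direct hab.symm) (by
    intro x hx
    simp only [List.mem_cons, List.not_mem_nil, or_false] at hx
    rcases hx with rfl | rfl <;> assumption)
  simpa using this

theorem K2.cyc3 (K : K2 G) {k : ℕ} (hk : 3 ≤ k) : Cyc G (3 * k) := by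
  have := K.cyc (a := 0) (b := 1) (by omega) (K.direct (by omega)) (k := k - 1) (by omega)
  simp only [List.length_cons, List.length_nil] at this
  have e : 0 + 1 + 1 + 1 + 3 * (k - 1) = 3 * k := by omega
  rwa [e] at this

/-- From a path of length 4 between branch vertices: all `2r` with `r = 2 mod 3`. -/
theorem K2.cyc_of4 (K : K2 G) {a b : ℕ} (hab : a ≠ b) {m : List V} (h : Pth G (K.v a) (K.v b) m)
    (hm : m.length = 3) {r : ℕ} (hr : 4 ≤ r) (h3 : r % 3 = 2) : Cyc G (2 * r) := by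
  have := K.cyc hab h (k := 2 * (r / 3)) (by omega)
  have e : m.length + 1 + 3 * (2 * (r / 3)) = 2 * r := by omega
  rwa [e] at this

/-- From a path of length 5 between branch vertices: all `2r` with `r = 1 mod 3`, `r ≥ 7`. -/
theorem K2.cyc_of5 (K : K2 G) {a b : ℕ} (hab : a ≠ b) {m : List V} (h : Pth G (K.v a) (K.v b) m)
    (hm : m.length = 4) {r : ℕ} (hr : 5 ≤ r) (h3 : r % 3 = 1) : Cyc G (2 * r) := by
  have := K.cyc hab h (k := 2 * (r / 3) - 1) (by omega)
  have e : m.length + 1 + 3 * (2 * (r / 3) - 1) = 2 * r := by omega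
  rwa [e] at this

theorem K2.cyc_of5' (K : K2 G) {a b : ℕ} (hab : a ≠ b) {m : List V}
    (h : Pth G (K.v a) (K.v b) m) (hm : m.length = 4) (h1 : K.w a b ∉ m) (h2 : K.w b a ∉ m)
    {r : ℕ} (hr : 4 ≤ r) (h3 : r % 3 = 1) : Cyc G (2 * r) := by
  rcases eq_or_ne r 4 with rfl | h4
  · have := K.cyc1 hab h h1 h2
    rwa [hm] at this
  · exact K.cyc_of5 hab h hm (by omega) h3

/-- From a path of length 7 between branch vertices: all `2r` with `r = 2 mod 3`, `r ≥ 8`. -/
theorem K2.cyc_of7 (K : K2 G) {a b : ℕ} (hab : a ≠ b) {m : List V} (h : Pth G (K.v a) (K.v b) m)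
    (hm : m.length = 6) {r : ℕ} (hr : 6 ≤ r) (h3 : r % 3 = 2) : Cyc G (2 * r) := by
  have := K.cyc hab h (k := 2 * (r / 3) - 1) (by omega)
  have e : m.length + 1 + 3 * (2 * (r / 3) - 1) = 2 * r := by omega
  rwa [e] at this

theorem K2.cyc_of7' (K : K2 G) {a b : ℕ} (hab : a ≠ b) {m : List V}
    (h : Pth G (K.v a) (K.v b) m) (hm : m.length = 6) (h1 : K.w a b ∉ m) (h2 : K.w b a ∉ m)
    {r : ℕ} (hr : 4 ≤ r) (h3 : r % 3 = 2) : Cyc G (2 * r) := by
  rcases eq_or_ne r 5 with rfl | h4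
  · have := K.cyc1 hab h h1 h2
    rwa [hm] at this
  · exact K.cyc_of7 hab h hm (by omega) h3

end Pool.Agent.H56.Td
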