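import Pool.Agent.H56.Td.Ray
import Pool.Agent.H56.Td.Forest

/-!
Ultraproduct argument and the final theorem.
-/

set_option autoImplicit false

namespace Pool.Agent.H56.Td

open Filter

universe u

section ultra

variable (V : ℕ → Type u) (G : ∀ n, SimpleGraph (V n))

/-- vertices of the ultraproduct -/
def UV : Type u := Quotient (productSetoid (hyperfilter ℕ : Filter ℕ) V)

/-- the ultraproduct graph -/
def UG : SimpleGraph (UV V) where
  Adj := Quotient.lift₂ (fun f g => ∀ᶠ n in (hyperfilter ℕ : Filter ℕ), (G n).Adj (f n) (g n)) (by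
    intro f g f' g' hf hg
    apply propext
    constructor
    · intro h
      filter_upwards [h, hf, hg] with n h1 h2 h3
      rw [← h2, ← h3]; exact h1
    · intro h
      filter_upwards [h, hf, hg] with n h1 h2 h3
      rw [h2, h3]; exact h1)
  symm := ⟨by
    intro a b
    induction a using Quotient.inductionOn
    induction b using Quotient.inductionOn
    intro h
    exact h.mono fun n hn => hn.symm⟩
  loopless := ⟨by
    intro a
    induction a using Quotient.inductionOn
    intro h
    obtain ⟨n, hn⟩ := h.exists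
    exact (G n).loopless.irrefl _ hn⟩

variable {V}

noncomputable def mkU (f : ∀ n, V n) : UV V := Quotient.mk (productSetoid (hyperfilter ℕ : Filter ℕ) V) f

theorem mkU_eq {f g : ∀ n, V n} :
    mkU f = mkU g ↔ ∀ᶠ n in (hyperfilter ℕ : Filter ℕ), f n = g n := Quotient.eq

theorem UG_adj {f g : ∀ n, V n} :
    (UG V G).Adj (mkU f) (mkU g) ↔
      ∀ᶠ n in (hyperfilter ℕ : Filter ℕ), (G n).Adj (f n) (g n) := Iff.rfl

theorem exists_mkU (x : UV V) : ∃ f, mkU f = x := Quotient.exists_rep x

theorem UG_diam3 (h : ∀ n, Diam3 (G n)) : Diam3 (UG V G) := by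
  intro x y
  obtain ⟨f, rfl⟩ := exists_mkU x
  obtain ⟨g, rfl⟩ := exists_mkU y
  have h1 : ∀ᶠ n in (hyperfilter ℕ : Filter ℕ), f n = g n ∨ (G n).Adj (f n) (g n) ∨
      (∃ x, (G n).Adj (f n) x ∧ (G n).Adj x (g n)) ∨
      ∃ x y, (G n).Adj (f n) x ∧ (G n).Adj x y ∧ (G n).Adj y (g n) :=
    Filter.Eventually.of_forall fun n => h n (f n) (g n)
  rcases Ultrafilter.eventually_or.1 h1 with h2 | h1
  · exact Or.inl (mkU_eq.2 h2)
  rcases Ultrafilter.eventually_or.1 h1 with h2 | h1
  · exact Or.inr (Or.inl ((UG_adj G).2 h2))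
  rcases Ultrafilter.eventually_or.1 h1 with h2 | h1
  · right; right; left
    have hch : ∀ n, ∃ x, (∃ x, (G n).Adj (f n) x ∧ (G n).Adj x (g n)) →
        (G n).Adj (f n) x ∧ (G n).Adj x (g n) := by
      intro n
      by_cases hn : ∃ x, (G n).Adj (f n) x ∧ (G n).Adj x (g n)
      · obtain ⟨x, hx⟩ := hn
        exact ⟨x, fun _ => hx⟩
      · exact ⟨f n, fun h => absurd h hn⟩
    choose x hx using hch
    exact ⟨mkU x, (UG_adj G).2 (h2.mono fun n hn => (hx n hn).1),
      (UG_adj G).2 (h2.mono fun n hn => (hx n hn).2)⟩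
  · right; right; right
    have hch : ∀ n, ∃ x y, (∃ x y, (G n).Adj (f n) x ∧ (G n).Adj x y ∧ (G n).Adj y (g n)) →
        (G n).Adj (f n) x ∧ (G n).Adj x y ∧ (G n).Adj y (g n) := by
      intro n
      by_cases hn : ∃ x y, (G n).Adj (f n) x ∧ (G n).Adj x y ∧ (G n).Adj y (g n)
      · obtain ⟨x, y, hx⟩ := hn
        exact ⟨x, y, fun _ => hx⟩
      · exact ⟨f n, f n, fun h => absurd h hn⟩
    choose x y hx using hch
    exact ⟨mkU x, mkU y, (UG_adj G).2 (h1.mono fun n hn => (hx n hn).1),
      (UG_adj G).2 (h1.mono fun n hn => (hx n hn).2.1),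
      (UG_adj G).2 (h1.mono fun n hn => (hx n hn).2.2)⟩

/-- A finite graph contained in the ultraproduct is contained in some factor. -/
theorem UG_isContained {α : Type*} [Finite α] {A : SimpleGraph α} (h : A.IsContained (UG V G)) :
    ∃ n, A.IsContained (G n) := by
  obtain ⟨f⟩ := h
  choose F hF using fun i => exists_mkU (f i)
  have h1 : ∀ᶠ n in (hyperfilter ℕ : Filter ℕ), ∀ i j, A.Adj i j → (G n).Adj (F i n) (F j n) := by
    rw [Filter.eventually_all]
    intro i
    rw [Filter.eventually_all]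
    intro j
    by_cases hij : A.Adj i j
    · have := f.toHom.map_adj hij
      simp only [SimpleGraph.Copy.toHom_apply] at this
      rw [← hF i, ← hF j, UG_adj] at this
      exact this.mono fun n hn _ => hn
    · exact Filter.Eventually.of_forall fun n h => absurd h hij
  have h2 : ∀ᶠ n in (hyperfilter ℕ : Filter ℕ), ∀ i j, i ≠ j → F i n ≠ F j n := by
    rw [Filter.eventually_all]
    intro i
    rw [Filter.eventually_all]
    intro j
    by_cases hij : i = j
    · exact Filter.Eventually.of_forall fun n h => absurd hij h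
    · have : ¬ mkU (F i) = mkU (F j) := by
        rw [hF, hF]
        exact fun h => hij (f.injective h)
      rw [mkU_eq, ← Ultrafilter.eventually_not] at this
      exact this.mono fun n hn _ => hn
  obtain ⟨n, hn1, hn2⟩ := (h1.and h2).exists
  refine ⟨n, ⟨⟨⟨fun i => F i n, fun {a b} hab => hn1 a b hab⟩, ?_⟩⟩⟩
  intro i j hij
  by_contra hne
  exact hn2 i j hne hij

end ultra

theorem diam3_of_ediam {V : Type*} {G : SimpleGraph V} (h : G.ediam ≤ 3) : Diam3 G := by
  intro a b
  have h1 : G.edist a b ≤ 3 := le_trans SimpleGraph.edist_le_ediam h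
  have h2 : G.edist a b ≠ ⊤ := ne_top_of_le_ne_top (by simp) h1
  obtain ⟨p, hp⟩ := SimpleGraph.exists_walk_of_edist_ne_top h2
  rw [← hp] at h1
  have h3 : p.length ≤ 3 := by exact_mod_cast h1
  clear hp h1 h2
  rcases p with _ | ⟨e1, p⟩
  · exact Or.inl rfl
  rcases p with _ | ⟨e2, p⟩
  · exact Or.inr (Or.inl e1)
  rcases p with _ | ⟨e3, p⟩
  · exact Or.inr (Or.inr (Or.inl ⟨_, e1, e2⟩))
  rcases p with _ | ⟨e4, p⟩
  · exact Or.inr (Or.inr (Or.inr ⟨_, _, e1, e2, e3⟩))
  · simp only [SimpleGraph.Walk.length_cons] at h3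
    omega

/-- The theorem. -/
theorem main (r : ℕ) (hr : 4 ≤ r) : ∃ c : ℕ, ∀ (V : Type u) [Finite V] (G : SimpleGraph V),
    (SimpleGraph.cycleGraph (2 * r)).Free G → G.ediam ≤ 3 → treedepth G ≤ c := by
  by_contra hcon0
  have hcon : ∀ c : ℕ, ∃ (V : Type u) (_ : Finite V) (G : SimpleGraph V),
      (SimpleGraph.cycleGraph (2 * r)).Free G ∧ G.ediam ≤ 3 ∧ c < treedepth G := by
    intro c
    by_contra h
    apply hcon0
    refine ⟨c, fun V hV G h1 h2 => ?_⟩
    by_contra h3
    exact h ⟨V, hV, G, h1, h2, not_le.1 h3⟩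
  have h1 : ∀ n : ℕ, ∃ (V : Type u) (G : SimpleGraph V), (SimpleGraph.cycleGraph (2 * r)).Free G ∧
      Diam3 G ∧ ∃ l : List V, n < l.length ∧ l.IsChain G.Adj ∧ l.Nodup := by
    intro n
    obtain ⟨V, _, G, hfree, hdiam, htd⟩ := hcon n
    refine ⟨V, G, hfree, diam3_of_ediam hdiam, ?_⟩
    have hne : Nonempty V := by
      by_contra hempty
      rw [not_nonempty_iff] at hempty
      have : treedepth G ≤ 0 := by
        apply Nat.sInf_le
        exact ⟨⟨fun v => hempty.elim v, fun v => hempty.elim v, fun v => hempty.elim v,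
          fun v => hempty.elim v⟩, fun v => hempty.elim v, fun v => hempty.elim v⟩
      omega
    obtain ⟨v⟩ := hne
    have hpre : G.Preconnected :=
      SimpleGraph.preconnected_of_ediam_ne_top (ne_top_of_le_ne_top (by simp) hdiam)
    by_contra hl
    push Not at hl
    have := treedepth_le hpre v n (fun l hl1 hl2 => by
      by_contra hlen
      exact hl (v :: l) (by simp; omega) hl1 hl2)
    omega
  choose V G hfree hdiam l hlen hchain hnodup using h1
  -- the ray in the ultraproduct
  let p : ℕ → UV V := fun k => mkU (fun n => if h : k < (l n).length then (l n)[k] else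
    (l n)[0]'(by have := hlen n; omega))
  have hp : Function.Injective p := by
    intro i j hij
    by_contra hne
    rw [mkU_eq] at hij
    have hlarge : ∀ᶠ n in (hyperfilter ℕ : Filter ℕ), max i j ≤ n :=
      Nat.hyperfilter_le_atTop (Filter.eventually_ge_atTop _)
    obtain ⟨n, h1, h2⟩ := (hij.and hlarge).exists
    have hn := hlen n
    have hi : i < (l n).length := by omega
    have hj : j < (l n).length := by omega
    simp only [dif_pos hi, dif_pos hj] at h1
    exact hne ((List.Nodup.getElem_inj_iff (hnodup n)).1 h1)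
  have ha : ∀ k, (UG V G).Adj (p k) (p (k + 1)) := by
    intro k
    rw [UG_adj]
    have hlarge : ∀ᶠ n in (hyperfilter ℕ : Filter ℕ), k + 1 ≤ n :=
      Nat.hyperfilter_le_atTop (Filter.eventually_ge_atTop _)
    refine hlarge.mono fun n hn => ?_
    have hn' := hlen n
    have hi : k < (l n).length := by omega
    have hj : k + 1 < (l n).length := by omega
    simp only [dif_pos hi, dif_pos hj]
    exact List.isChain_iff_getElem.1 (hchain n) k (by omega)
  have hcyc := cyc_of_ray (UG_diam3 G hdiam) hr hp ha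
  obtain ⟨n, hn⟩ := UG_isContained G (cyc_isContained (by omega) hcyc)
  exact hfree n hn

end Pool.Agent.H56.Td
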